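import Mathlib
import Pool.Agent.Lib.MP_f8e628_co.StageMean
import Pool.Agent.Lib.MP_f8e628_co.StageOut

set_option autoImplicit false
set_option linter.unusedSectionVars false

open Finset

namespace Pool.Agent.Lib.MP_f8e628_co

section
variable {V : Type*} [DecidableEq V] [Fintype V]
variable {G : Finset (Finset V)} {hp : Finset V → Finset (Finset V)} {lam : Finset V → ℝ}
  {K Λ β0 : ℝ} {R : ℕ} {γ1 γ2 γ ζ err : ℝ} {adj : V → V → Prop}

lemma Geo.sum_V2_local (h : Geo G hp) (hrefl : ∀ u, adj u u)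
    (hadj : ∀ e ∈ G, ∀ u ∈ e, ∀ u' ∈ e, adj u u') (v : V) {F : Finset (Finset V)}
    (hF : F ⊆ G.filter (fun e => v ∈ e)) {M M' : Finset (Finset V)}
    (hM : ∀ p, (∃ a ∈ p, near adj 2 v a) → (p ∈ M ↔ p ∈ M')) :
    ∑ e ∈ F, V2 G hp lam K ζ M e = ∑ e ∈ F, V2 G hp lam K ζ M' e := by
  have h1 : ∀ u, near adj 1 v u → ∀ e ∈ G, u ∈ e → V1 hp lam K M e = V1 hp lam K M' e := by
    intro u hu e he hue
    unfold V1
    rw [ind_congr (h.av_congr he fun p ⟨a, ha1, ha2⟩ =>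
      hM p ⟨a, ha1, near_step hu (hadj e he u hue a ha2)⟩)]
  have h2 : ∀ u, near adj 1 v u →
      load G (fun e => e) (V1 hp lam K M) u = load G (fun e => e) (V1 hp lam K M') u :=
    fun u hu => Finset.sum_congr rfl fun e he =>
      h1 u hu e (Finset.mem_filter.mp he).1 (Finset.mem_filter.mp he).2
  refine Finset.sum_congr rfl fun e he => ?_
  obtain ⟨he1, he2⟩ := Finset.mem_filter.mp (hF he)
  unfold V2
  rw [h1 v (near_refl hrefl 1 v) e he1 he2]
  congr 2
  apply ind_congr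
  refine forall₂_congr fun u hu => ?_
  rw [h2 u (near_one (hadj e he1 v he2 u hu))]

lemma Setup.mean2 (h : Setup G hp lam K Λ β0) (hq : Par Λ β0 R γ1 γ2 γ ζ err)
    (hrefl : ∀ u, adj u u) (hadj : ∀ e ∈ G, ∀ u ∈ e, ∀ u' ∈ e, adj u u')
    (hadjl : ∀ u w, u ≠ w → lam {u, w} ≠ 0 → adj u w) (v : V) {F : Finset (Finset V)}
    (hF : F ⊆ G.filter (fun e => v ∈ e)) (g : Finset (Finset V) → ℝ)
    (hg0 : ∀ M, 0 ≤ g M)
    (hg : ∀ M M', (∀ p, ¬ p ⊆ ball adj (R + 3) v → (p ∈ M ↔ p ∈ M')) → g M = g M') :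
    (1 - 3 * err) / ((1 + γ) * (1 + 2 * ζ) * K) * (F.card : ℝ) *
        ∑ M, md lam Finset.univ M * g M ≤
      ∑ M, md lam Finset.univ M * ((∑ e ∈ F, V2 G hp lam K (2 * ζ) M e) * g M) := by
  set B := ball adj (R + 3) v with hB
  set κ := (1 - 3 * err) / ((1 + γ) * (1 + 2 * ζ) * K) with hκ
  rw [markov lam B, markov lam B, Finset.mul_sum]
  refine Finset.sum_le_sum fun θ _ => ?_
  by_cases hθ : wt lam θ * ind (IsMat Finset.univ θ ∧ ∀ p ∈ θ, ¬ p ⊆ B) = 0
  · rw [hθ]; simp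
  rw [mul_left_comm]
  refine mul_le_mul_of_nonneg_left ?_ (mul_nonneg (wt_nonneg h.lam0 θ) (ind_nonneg _))
  have hθ1 : ∀ p ∈ θ, lam p ≠ 0 := fun p hp1 h0 =>
    hθ (by rw [show wt lam θ = 0 from Finset.prod_eq_zero hp1 h0, zero_mul])
  have hθ2 : IsMat Finset.univ θ ∧ ∀ p ∈ θ, ¬ p ⊆ B := by
    by_contra hh
    exact hθ (by rw [ind_neg hh, mul_zero])
  have hfar : ∀ p ∈ θ, ∀ y ∈ p, ¬ near adj (R + 2) v y := fun p hp1 y hy hn =>
    hθ2.2 p hp1 (pair_sub_ball hrefl hadjl (hθ2.1.1 p hp1).2 (hθ1 p hp1) hy hn)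
  set S := B \ cov θ with hS
  have h1 : ∀ M, md lam S M * g (θ ∪ M) = md lam S M * g θ := by
    intro M
    by_cases hM : IsMat S M
    · rw [hg (θ ∪ M) θ]
      intro p hpB
      rw [Finset.mem_union]
      exact ⟨fun hh => hh.resolve_right fun hpM =>
        hpB ((hM.1 p hpM).1.trans Finset.sdiff_subset), Or.inl⟩
    · unfold md
      rw [ind_neg hM]; simp
  have h2 : ∀ M, ∑ e ∈ F, V2 G hp lam K (2 * ζ) (θ ∪ M) e =
      ∑ e ∈ F, V2 G hp lam K (2 * ζ) M e := by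
    intro M
    refine h.geo.sum_V2_local hrefl hadj v hF fun p ⟨a, ha1, ha2⟩ => ?_
    rw [Finset.mem_union]
    exact ⟨fun hh => hh.resolve_left fun hpθ =>
      hfar p hpθ a ha1 (near_mono hrefl (by omega) ha2), Or.inr⟩
  have h3 : ∀ M, md lam S M * ((∑ e ∈ F, V2 G hp lam K (2 * ζ) (θ ∪ M) e) *
      g (θ ∪ M)) = md lam S M * (∑ e ∈ F, V2 G hp lam K (2 * ζ) M e) * g θ := by
    intro M
    rw [h2 M, mul_left_comm, h1 M]
    ring
  simp only [h1, h3]
  rw [← Finset.sum_mul, ← Finset.sum_mul, ← mul_assoc]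
  refine mul_le_mul_of_nonneg_right ?_ (hg0 θ)
  simp only [Finset.mul_sum]
  rw [Finset.sum_comm, ← Finset.mul_sum]
  have h4 : ∀ e0 ∈ F,
      κ * Z lam S ≤ ∑ M, md lam S M * V2 G hp lam K (2 * ζ) M e0 := by
    intro e0 he0
    obtain ⟨he1, he2⟩ := Finset.mem_filter.mp (hF he0)
    refine h.ex_V2 hq he1 S fun x hx e he hxe u hu => ?_
    refine infl_eq_zero hrefl hadjl R u _ fun y hy hn => ?_
    have h5 : near adj (R + 2) v y := by
      have := near_trans (near_step (near_one (hadj e0 he1 v he2 x hx)) (hadj e he x hxe u hu)) hn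
      rwa [show 1 + 1 + R = R + 2 by omega] at this
    refine (Finset.mem_sdiff.mp hy).2 (Finset.mem_sdiff.mpr ⟨?_, fun hc => ?_⟩)
    · exact mem_ball.mpr (near_mono hrefl (by omega) h5)
    · obtain ⟨p, hp1, hyp⟩ := mem_cov.mp hc
      exact hfar p hp1 y hyp h5
  have h5 := Finset.sum_le_sum h4
  rw [Finset.sum_const, nsmul_eq_mul] at h5
  refine le_trans (le_of_eq ?_) h5
  unfold Z
  ring

open Classical in
/-- Ordered adjacent pairs whose first vertex is near `v`. -/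
noncomputable def pball (adj : V → V → Prop) (k : ℕ) (v : V) : Finset (V × V) :=
  Finset.univ.filter fun j => near adj k v j.1 ∧ adj j.1 j.2

lemma mem_pball {k : ℕ} {v : V} {j : V × V} :
    j ∈ pball adj k v ↔ near adj k v j.1 ∧ adj j.1 j.2 := by
  simp [pball]

lemma card_pball_le {Δ : ℝ} (hΔ : ∀ u, ((ball adj 1 u).card : ℝ) ≤ Δ) (k : ℕ) (v : V) :
    ((pball adj k v).card : ℝ) ≤ Δ ^ (k + 1) := by
  have h1 : pball adj k v ⊆ (ball adj k v).biUnion fun u => (ball adj 1 u).image fun w => (u, w) := by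
    intro j hj
    obtain ⟨h2, h3⟩ := mem_pball.mp hj
    exact Finset.mem_biUnion.mpr ⟨j.1, mem_ball.mpr h2,
      Finset.mem_image.mpr ⟨j.2, mem_ball.mpr (near_one h3), rfl⟩⟩
  have h2 : ((pball adj k v).card : ℝ) ≤
      ∑ u ∈ ball adj k v, (((ball adj 1 u).image fun w => (u, w)).card : ℝ) := by
    exact_mod_cast (Finset.card_le_card h1).trans Finset.card_biUnion_le
  have h3 : ∑ u ∈ ball adj k v, (((ball adj 1 u).image fun w => (u, w)).card : ℝ) ≤
      ∑ _u ∈ ball adj k v, Δ :=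
    Finset.sum_le_sum fun u _ => le_trans (Nat.cast_le.mpr Finset.card_image_le) (hΔ u)
  rw [Finset.sum_const, nsmul_eq_mul] at h3
  have h4 : 0 ≤ Δ := le_trans (Nat.cast_nonneg _) (hΔ v)
  calc _ ≤ ((ball adj k v).card : ℝ) * Δ := h2.trans h3
    _ ≤ Δ ^ k * Δ := mul_le_mul_of_nonneg_right (card_ball_le hΔ k v) h4
    _ = Δ ^ (k + 1) := by ring

/-- Adjacency of tests. -/
def padj (adj : V → V → Prop) (j j' : V × V) : Prop :=
  j = j' ∨ (adj j.1 j.2 ∧ adj j'.1 j'.2 ∧ adj j.1 j'.1)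

lemma card_ball_padj (hrefl : ∀ u, adj u u) {Δ : ℝ} (hΔ1 : 1 ≤ Δ)
    (hΔ : ∀ u, ((ball adj 1 u).card : ℝ) ≤ Δ) (j : V × V) :
    ((ball (padj adj) 1 j).card : ℝ) ≤ Δ ^ 2 := by
  have key : ∀ j' ∈ ball (padj adj) 1 j, padj adj j j' := by
    intro j' hj'
    obtain ⟨x, hx1, hx2⟩ := mem_ball.mp hj'
    exact (show j = x from hx1) ▸ hx2
  by_cases hj : adj j.1 j.2
  · refine le_trans (Nat.cast_le.mpr (Finset.card_le_card fun j' hj' => ?_))
      (card_pball_le hΔ 1 j.1)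
    rcases key j' hj' with h | ⟨-, h1, h2⟩
    · exact h ▸ mem_pball.mpr ⟨near_refl hrefl 1 _, hj⟩
    · exact mem_pball.mpr ⟨near_one h2, h1⟩
  · have h1 : (ball (padj adj) 1 j).card ≤ 1 := Finset.card_le_one.mpr fun a ha b hb =>
      ((key a ha).resolve_right fun h => hj h.1).symm.trans
        ((key b hb).resolve_right fun h => hj h.1)
    exact le_trans (by exact_mod_cast h1) (one_le_pow₀ hΔ1)

end

section
variable {V V' ι : Type*} [DecidableEq V] [DecidableEq V'] {E : Finset ι} {r : ι → Finset V}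
  {W : ι → ℝ} {γ : ℝ} {f : V → V'}

lemma load_image (hf : Function.Injective f) (u : V) :
    load E (fun e => (r e).image f) W (f u) = load E r W u := by
  unfold load
  simp only [hf.mem_finset_image]

lemma FracM.image (h : FracM E r W γ) (hγ : 0 ≤ γ) (hf : Function.Injective f) :
    FracM E (fun e => (r e).image f) W γ where
  nonneg := h.nonneg
  supp := h.supp
  ne := fun e he => (h.ne e he).image f
  card := fun e he => Finset.card_image_le.trans (h.card e he)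
  load_le := fun u => by
    by_cases hu : ∃ x, f x = u
    · obtain ⟨x, rfl⟩ := hu
      rw [load_image hf]
      exact h.load_le x
    · refine le_trans (le_of_eq (Finset.sum_eq_zero fun e he => ?_)) zero_le_one
      obtain ⟨x, -, hx⟩ := Finset.mem_image.mp (Finset.mem_filter.mp he).2
      exact absurd ⟨x, hx⟩ hu
  codeg := fun u u' huu => by
    by_cases hu : ∃ x x', f x = u ∧ f x' = u'
    · obtain ⟨x, x', rfl, rfl⟩ := hu
      simp only [hf.mem_finset_image]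
      exact h.codeg x x' fun e => huu (congrArg f e)
    · refine le_trans (le_of_eq (Finset.sum_eq_zero fun e he => ?_)) hγ
      obtain ⟨x, -, hx⟩ := Finset.mem_image.mp (Finset.mem_filter.mp he).2.1
      obtain ⟨x', -, hx'⟩ := Finset.mem_image.mp (Finset.mem_filter.mp he).2.2
      exact absurd ⟨x, x', hx, hx'⟩ hu

end

end Pool.Agent.Lib.MP_f8e628_co
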