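import Mathlib
import Pool.Agent.Lib.MP_f8e628_co.Pluecker

set_option autoImplicit false
set_option linter.unusedSectionVars false

open Finset

namespace Pool.Agent.Lib.MP_f8e628_co

lemma one_le_dsum {α : Type*} [DecidableEq α] (U : Finset α) (P : α → Prop) [DecidablePred P]
    (h : 1 < (U.filter P).card) : 1 ≤ ∑ u ∈ U, ∑ u' ∈ U.erase u, ind (P u ∧ P u') := by
  obtain ⟨a, ha, b, hb, hab⟩ := Finset.one_lt_card.mp h
  obtain ⟨ha1, ha2⟩ := Finset.mem_filter.mp ha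
  obtain ⟨hb1, hb2⟩ := Finset.mem_filter.mp hb
  have h1 := Finset.single_le_sum (f := fun u => ∑ u' ∈ U.erase u, ind (P u ∧ P u'))
    (fun u _ => Finset.sum_nonneg fun _ _ => ind_nonneg _) ha1
  have h2 := Finset.single_le_sum (f := fun u' => ind (P a ∧ P u')) (s := U.erase a)
    (fun _ _ => ind_nonneg _) (Finset.mem_erase.mpr ⟨hab.symm, hb1⟩)
  rw [ind_pos ⟨ha2, hb2⟩] at h2
  exact h2.trans h1

lemma dsum_le {α : Type*} [DecidableEq α] (U : Finset α) (f : α → α → ℝ) {B n : ℝ} (hB : 0 ≤ B)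
    (hn : (U.card : ℝ) ≤ n) (h : ∀ u ∈ U, ∀ u' ∈ U, u' ≠ u → f u u' ≤ B) :
    ∑ u ∈ U, ∑ u' ∈ U.erase u, f u u' ≤ n ^ 2 * B := by
  have h0 : (0 : ℝ) ≤ U.card := Nat.cast_nonneg _
  have h1 : ∀ u ∈ U, ∑ u' ∈ U.erase u, f u u' ≤ n * B := by
    intro u hu
    refine (Finset.sum_le_sum (g := fun _ => B) fun u' hu' =>
      h u hu u' (Finset.mem_erase.mp hu').2 (Finset.mem_erase.mp hu').1).trans ?_
    rw [Finset.sum_const, nsmul_eq_mul]
    refine mul_le_mul_of_nonneg_right (le_trans ?_ hn) hB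
    exact_mod_cast Finset.card_erase_le
  refine (Finset.sum_le_sum h1).trans ?_
  rw [Finset.sum_const, nsmul_eq_mul, sq, mul_assoc]
  exact mul_le_mul_of_nonneg_right hn (mul_nonneg (h0.trans hn) hB)

section
variable {V : Type*} [DecidableEq V] [Fintype V] {lam x : Finset V → ℝ} {δ : ℝ}

/-- The weight of the matchings that leave both `u` and `v` free. -/
noncomputable def g2 (lam : Finset V → ℝ) (u v : V) : ℝ := Z lam ((Finset.univ.erase u).erase v)

lemma g2_comm (u v : V) : g2 lam u v = g2 lam v u := by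
  unfold g2
  rw [Finset.erase_right_comm]

lemma g2_eq (u v : V) : g2 lam u v = Z lam (Finset.univ \ {u, v}) := by
  unfold g2
  congr 1
  ext y
  simp only [Finset.mem_erase, Finset.mem_sdiff, Finset.mem_insert, Finset.mem_singleton]
  tauto

lemma mass_free1 (u : V) :
    ∑ M, md lam Finset.univ M * ind (u ∉ cov M) = Z lam (Finset.univ.erase u) := by
  have h1 := ev_exact lam (S := Finset.univ) (U := {u}) (P := ∅) (isMat_empty _) (by simp)
  simpa [Ev, wt, Finset.sdiff_singleton_eq_erase] using h1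

lemma mass_free2 (u v : V) :
    ∑ M, md lam Finset.univ M * ind (u ∉ cov M ∧ v ∉ cov M) = g2 lam u v := by
  have h1 := ev_exact lam (S := Finset.univ) (U := {u, v}) (P := ∅) (isMat_empty _) (by simp)
  rw [g2_eq]
  simpa [Ev, wt] using h1

lemma g2_trans (h : ∀ p, 0 ≤ lam p)
    (hfree : ∀ v, δ * Z lam Finset.univ ≤ Z lam (Finset.univ.erase v)) {a b c : V}
    (hab : a ≠ b) (hac : a ≠ c) (hbc : b ≠ c) :
    δ * g2 lam b c ≤ 2 * g2 lam a b + g2 lam a c := by
  have h1 := (pluecker h _ Finset.univ rfl a (Finset.mem_univ _) b (Finset.mem_univ _) c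
    (Finset.mem_univ _) hab hac hbc).2
  have hZ := Z_pos h Finset.univ
  have m1 : Z lam (((Finset.univ.erase a).erase b).erase c) ≤ g2 lam a b :=
    Z_mono h (Finset.erase_subset _ _)
  have m2 : ∀ v, Z lam (Finset.univ.erase v) ≤ Z lam Finset.univ :=
    fun v => Z_mono h (Finset.erase_subset _ _)
  have n1 : ∀ u v, 0 ≤ g2 lam u v := fun u v => Z_nonneg h _
  have b1 := mul_le_mul_of_nonneg_right (hfree a) (n1 b c)
  have b2 := mul_le_mul_of_nonneg_left m1 hZ.le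
  have b3 := mul_le_mul_of_nonneg_right (m2 b) (n1 a c)
  have b4 := mul_le_mul_of_nonneg_right (m2 c) (n1 a b)
  refine le_of_mul_le_mul_left ?_ hZ
  unfold g2 at *
  nlinarith

lemma size_bound (h : ∀ p, 0 ≤ lam p)
    (hfree : ∀ v, δ * Z lam Finset.univ ≤ Z lam (Finset.univ.erase v)) (W : Finset V) {η : ℝ}
    (hη : 0 ≤ η) (hW : ∀ u ∈ W, ∀ u' ∈ W, u' ≠ u → g2 lam u u' ≤ η * Z lam Finset.univ) :
    (W.card : ℝ) * δ ≤ 1 + (W.card : ℝ) ^ 3 * η := by
  classical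
  have hZ := Z_pos h Finset.univ
  have hn : (0 : ℝ) ≤ W.card := Nat.cast_nonneg _
  have h1 : ∀ M : Finset (Finset V), ∑ u ∈ W, ind (u ∉ cov M) ≤
      1 + W.card * ∑ u ∈ W, ∑ u' ∈ W.erase u, ind (u ∉ cov M ∧ u' ∉ cov M) := by
    intro M
    have h2 : 0 ≤ ∑ u ∈ W, ∑ u' ∈ W.erase u, ind (u ∉ cov M ∧ u' ∉ cov M) :=
      Finset.sum_nonneg fun _ _ => Finset.sum_nonneg fun _ _ => ind_nonneg _
    rw [sum_ind_eq_card]
    by_cases hc : 1 < (W.filter fun u => u ∉ cov M).card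
    · have h3 := one_le_dsum W (fun u => u ∉ cov M) hc
      have h4 : ((W.filter fun u => u ∉ cov M).card : ℝ) ≤ W.card := by
        exact_mod_cast Finset.card_filter_le _ _
      nlinarith
    · have h4 : ((W.filter fun u => u ∉ cov M).card : ℝ) ≤ 1 := by exact_mod_cast not_lt.mp hc
      nlinarith
  have h2 := Finset.sum_le_sum fun M (_ : M ∈ Finset.univ) =>
    mul_le_mul_of_nonneg_left (h1 M) (md_nonneg h Finset.univ M)
  have h3 : ∑ M, md lam Finset.univ M * ∑ u ∈ W, ind (u ∉ cov M) =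
      ∑ u ∈ W, Z lam (Finset.univ.erase u) := by
    simp only [Finset.mul_sum]
    rw [Finset.sum_comm]
    exact Finset.sum_congr rfl fun u _ => mass_free1 u
  have h4 : ∑ M, md lam Finset.univ M *
      (1 + W.card * ∑ u ∈ W, ∑ u' ∈ W.erase u, ind (u ∉ cov M ∧ u' ∉ cov M)) =
      Z lam Finset.univ + W.card * ∑ u ∈ W, ∑ u' ∈ W.erase u, g2 lam u u' := by
    simp only [mul_add, mul_one, Finset.sum_add_distrib, mul_left_comm _ (W.card : ℝ)]
    rw [← Finset.mul_sum]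
    congr 2
    simp only [Finset.mul_sum]
    rw [Finset.sum_comm]
    refine Finset.sum_congr rfl fun u _ => ?_
    rw [Finset.sum_comm]
    exact Finset.sum_congr rfl fun u' _ => mass_free2 u u'
  rw [h3, h4] at h2
  have h5 := Finset.sum_le_sum fun u (_ : u ∈ W) => hfree u
  rw [Finset.sum_const, nsmul_eq_mul] at h5
  have h6 := mul_le_mul_of_nonneg_left (dsum_le W (g2 lam) (mul_nonneg hη hZ.le) le_rfl hW) hn
  refine le_of_mul_le_mul_right ?_ hZ
  nlinarith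

lemma Z_le_erase (h : ∀ p, 0 ≤ lam p) {S : Finset V} {a : V} (ha : a ∈ S) {Λ : ℝ}
    (hΛ : ∑ w ∈ S.erase a, lam {a, w} ≤ Λ) : Z lam S ≤ (1 + Λ) * Z lam (S.erase a) := by
  have h1 : ∑ w ∈ S.erase a, lam {a, w} * Z lam ((S.erase a).erase w) ≤
      ∑ w ∈ S.erase a, lam {a, w} * Z lam (S.erase a) :=
    Finset.sum_le_sum fun w _ =>
      mul_le_mul_of_nonneg_left (Z_mono h (Finset.erase_subset _ _)) (h _)
  rw [← Finset.sum_mul] at h1
  have h2 := mul_le_mul_of_nonneg_right hΛ (Z_nonneg h (S.erase a))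
  rw [Z_rec lam ha]
  linarith

lemma mass_kill (B : Finset V → Prop) [DecidablePred B] (S : Finset V) :
    ∑ M, md lam S M * ind (∀ p ∈ M, ¬ B p) = Z (fun p => if B p then 0 else lam p) S := by
  refine Finset.sum_congr rfl fun M _ => ?_
  unfold md wt
  rw [mul_right_comm]
  congr 1
  by_cases hM : ∀ p ∈ M, ¬ B p
  · rw [ind_pos hM, mul_one]
    exact Finset.prod_congr rfl fun p hp => (if_neg (hM p hp)).symm
  · rw [ind_neg hM, mul_zero]
    push Not at hM
    obtain ⟨p, hp, hB⟩ := hM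
    exact (Finset.prod_eq_zero (f := fun p => if B p then 0 else lam p) hp (if_pos hB)).symm

lemma mass_out (h : ∀ p, 0 ≤ lam p) (U : Finset V) {Λ : ℝ} (hΛ0 : 0 ≤ Λ)
    (hΛ : ∀ u ∈ U, ∑ w ∈ Finset.univ \ U, lam {u, w} ≤ Λ) {u u' : V} (hu : u ∈ U) (hu' : u' ∈ U)
    (hne : u' ≠ u) :
    ∑ M, md lam Finset.univ M * ind (u ∉ cov (M.filter (· ⊆ U)) ∧ u' ∉ cov (M.filter (· ⊆ U))) ≤
      (1 + Λ) ^ 2 * g2 lam u u' := by
  classical
  have h1 := mass_kill (lam := lam) (fun p => p ⊆ U ∧ (u ∈ p ∨ u' ∈ p)) Finset.univ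
  set l : Finset V → ℝ := fun p => if p ⊆ U ∧ (u ∈ p ∨ u' ∈ p) then 0 else lam p with hl
  have hl0 : ∀ p, 0 ≤ l p := fun p => by
    simp only [hl]
    split_ifs
    · exact le_rfl
    · exact h p
  have h2 : ∀ M : Finset (Finset V), (u ∉ cov (M.filter (· ⊆ U)) ∧ u' ∉ cov (M.filter (· ⊆ U))) ↔
      ∀ p ∈ M, ¬ (p ⊆ U ∧ (u ∈ p ∨ u' ∈ p)) := by
    intro M
    simp only [mem_cov, Finset.mem_filter]
    constructor
    · rintro ⟨h3, h4⟩ p hp ⟨h5, h6 | h6⟩
      · exact h3 ⟨p, ⟨hp, h5⟩, h6⟩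
      · exact h4 ⟨p, ⟨hp, h5⟩, h6⟩
    · intro h3
      exact ⟨fun ⟨p, ⟨hp, h5⟩, h6⟩ => h3 p hp ⟨h5, Or.inl h6⟩,
        fun ⟨p, ⟨hp, h5⟩, h6⟩ => h3 p hp ⟨h5, Or.inr h6⟩⟩
  simp only [fun M => ind_congr (h2 M)]
  rw [h1]
  have h3 : ∀ a ∈ U, (a = u ∨ a = u') → ∀ T : Finset V, ∑ w ∈ T, l {a, w} ≤ Λ := by
    intro a ha hau T
    refine le_trans ?_ (hΛ a ha)
    rw [← Finset.sum_filter_add_sum_filter_not T (fun w => w ∈ U), Finset.sum_eq_zero, zero_add]
    · refine le_trans (Finset.sum_le_sum (g := fun w => lam {a, w}) fun w _ => ?_)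
        (Finset.sum_le_sum_of_subset_of_nonneg (fun w hw => ?_) fun _ _ _ => h _)
      · simp only [hl]
        split_ifs
        · exact h _
        · exact le_rfl
      · exact Finset.mem_sdiff.mpr ⟨Finset.mem_univ _, (Finset.mem_filter.mp hw).2⟩
    · intro w hw
      refine if_pos ⟨Finset.insert_subset ha
        (Finset.singleton_subset_iff.mpr (Finset.mem_filter.mp hw).2), ?_⟩
      rcases hau with rfl | rfl
      · exact Or.inl (Finset.mem_insert_self _ _)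
      · exact Or.inr (Finset.mem_insert_self _ _)
  have h4 := Z_le_erase hl0 (Finset.mem_univ u) (h3 u hu (Or.inl rfl) _)
  have h5 := Z_le_erase hl0 (S := Finset.univ.erase u)
    (Finset.mem_erase.mpr ⟨hne, Finset.mem_univ u'⟩) (h3 u' hu' (Or.inr rfl) _)
  have h6 : Z l ((Finset.univ.erase u).erase u') = g2 lam u u' := by
    refine Z_congr fun p hp _ => if_neg ?_
    rintro ⟨-, h7 | h7⟩
    · simpa using hp h7
    · simpa using hp h7
  rw [h6] at h5
  have h7 := mul_le_mul_of_nonneg_left h5 (by linarith : 0 ≤ 1 + Λ)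
  nlinarith

lemma half_le (U : Finset V) {M : Finset (Finset V)} (hM : IsMat Finset.univ M) :
    ((U.card / 2 : ℕ) : ℝ) ≤ ∑ p ∈ U.powersetCard 2, ind (p ∈ M) + U.card *
      ∑ u ∈ U, ∑ u' ∈ U.erase u,
        ind (u ∉ cov (M.filter (· ⊆ U)) ∧ u' ∉ cov (M.filter (· ⊆ U))) := by
  classical
  have h0 : 0 ≤ ∑ p ∈ U.powersetCard 2, ind (p ∈ M) := Finset.sum_nonneg fun _ _ => ind_nonneg _
  have hn : (0 : ℝ) ≤ U.card := Nat.cast_nonneg _
  by_cases hc : 1 < (U.filter fun u => u ∉ cov (M.filter (· ⊆ U))).card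
  · have h3 := one_le_dsum U (fun u => u ∉ cov (M.filter (· ⊆ U))) hc
    have h4 : ((U.card / 2 : ℕ) : ℝ) ≤ U.card := by exact_mod_cast Nat.div_le_self _ _
    nlinarith
  · have h1 : (cov (M.filter (· ⊆ U))).card ≤ (M.filter (· ⊆ U)).card * 2 :=
      Finset.card_biUnion_le_card_mul _ _ _ fun p hp => (hM.1 p (Finset.mem_filter.mp hp).1).2.le
    have h2 := Finset.card_filter_add_card_filter_not (s := U)
      (fun u => u ∈ cov (M.filter (· ⊆ U)))
    have h3 : (U.filter fun u => u ∈ cov (M.filter (· ⊆ U))).card ≤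
        (cov (M.filter (· ⊆ U))).card :=
      Finset.card_le_card fun u hu => (Finset.mem_filter.mp hu).2
    have h4 : (M.filter (· ⊆ U)).card ≤ ((U.powersetCard 2).filter fun p => p ∈ M).card :=
      Finset.card_le_card fun p hp => Finset.mem_filter.mpr ⟨Finset.mem_powersetCard.mpr
        ⟨(Finset.mem_filter.mp hp).2, (hM.1 p (Finset.mem_filter.mp hp).1).2⟩,
        (Finset.mem_filter.mp hp).1⟩
    have h5 : ((U.card / 2 : ℕ) : ℝ) ≤ ((U.powersetCard 2).filter fun p => p ∈ M).card := by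
      exact_mod_cast (by omega : U.card / 2 ≤ ((U.powersetCard 2).filter fun p => p ∈ M).card)
    rw [sum_ind_eq_card]
    exact h5.trans (le_add_of_nonneg_right (mul_nonneg hn
      (Finset.sum_nonneg fun _ _ => Finset.sum_nonneg fun _ _ => ind_nonneg _)))

lemma closed_class (h : ∀ p, 0 ≤ lam p)
    (hup : ∀ p, p.card = 2 → lam p * Z lam (Finset.univ \ p) ≤ x p * Z lam Finset.univ)
    (U : Finset V) (hodd : ∑ p ∈ U.powersetCard 2, x p ≤ (1 - δ) * ((U.card / 2 : ℕ) : ℝ))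
    {η Λ : ℝ} (hη : 0 ≤ η) (hΛ0 : 0 ≤ Λ)
    (hin : ∀ u ∈ U, ∀ u' ∈ U, u' ≠ u → g2 lam u u' ≤ η * Z lam Finset.univ)
    (hΛ : ∀ u ∈ U, ∑ w ∈ Finset.univ \ U, lam {u, w} ≤ Λ) :
    δ * ((U.card / 2 : ℕ) : ℝ) ≤ (U.card : ℝ) ^ 3 * ((1 + Λ) ^ 2 * η) := by
  have hZ := Z_pos h Finset.univ
  have hn : (0 : ℝ) ≤ U.card := Nat.cast_nonneg _
  have h1 : ∀ M ∈ (Finset.univ : Finset (Finset (Finset V))),
      md lam Finset.univ M * ((U.card / 2 : ℕ) : ℝ) ≤ md lam Finset.univ M *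
      (∑ p ∈ U.powersetCard 2, ind (p ∈ M) + U.card * ∑ u ∈ U, ∑ u' ∈ U.erase u,
        ind (u ∉ cov (M.filter (· ⊆ U)) ∧ u' ∉ cov (M.filter (· ⊆ U)))) := by
    intro M _
    by_cases hM : IsMat Finset.univ M
    · exact mul_le_mul_of_nonneg_left (half_le U hM) (md_nonneg h _ M)
    · simp [md, ind_neg hM]
  have h2 := Finset.sum_le_sum h1
  rw [← Finset.sum_mul] at h2
  simp only [mul_add, Finset.sum_add_distrib, mul_left_comm _ (U.card : ℝ)] at h2
  rw [← Finset.mul_sum] at h2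
  have h3 : ∑ M, md lam Finset.univ M * ∑ p ∈ U.powersetCard 2, ind (p ∈ M) ≤
      (∑ p ∈ U.powersetCard 2, x p) * Z lam Finset.univ := by
    simp only [Finset.mul_sum, Finset.sum_mul]
    rw [Finset.sum_comm]
    refine Finset.sum_le_sum fun p hp => ?_
    have h4 := (Finset.mem_powersetCard.mp hp).2
    rw [ev_pair lam (Finset.subset_univ p) h4]
    exact hup p h4
  have h4 : ∑ M, md lam Finset.univ M * ∑ u ∈ U, ∑ u' ∈ U.erase u,
      ind (u ∉ cov (M.filter (· ⊆ U)) ∧ u' ∉ cov (M.filter (· ⊆ U))) ≤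
      (U.card : ℝ) ^ 2 * ((1 + Λ) ^ 2 * (η * Z lam Finset.univ)) := by
    refine le_trans (le_of_eq ?_) (dsum_le U (fun u u' => ∑ M, md lam Finset.univ M *
      ind (u ∉ cov (M.filter (· ⊆ U)) ∧ u' ∉ cov (M.filter (· ⊆ U)))) (by positivity) le_rfl
      fun u hu u' hu' hne => (mass_out h U hΛ0 hΛ hu hu' hne).trans
        (mul_le_mul_of_nonneg_left (hin u hu u' hu' hne) (by positivity)))
    simp only [Finset.mul_sum]
    rw [Finset.sum_comm]
    exact Finset.sum_congr rfl fun u _ => Finset.sum_comm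
  have h5 := mul_le_mul_of_nonneg_left h4 hn
  have h6 := mul_le_mul_of_nonneg_right hodd hZ.le
  refine le_of_mul_le_mul_right ?_ hZ
  change Z lam Finset.univ * _ ≤ _ at h2
  nlinarith

/-- A monomer-dimer model whose marginals are at most `x`, a point well inside the polytope
given by the degree constraints and the constraints of sets with at most `L` vertices. -/
structure Mdl (lam x : Finset V → ℝ) (δ : ℝ) (L : ℕ) : Prop where
  l0 : ∀ p, 0 ≤ lam p
  x0 : ∀ p, 0 ≤ x p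
  up : ∀ p, p.card = 2 → lam p * Z lam (Finset.univ \ p) ≤ x p * Z lam Finset.univ
  sum : ∀ v, ∑ w ∈ Finset.univ.erase v, x {v, w} ≤ 1 - δ
  odd : ∀ U : Finset V, U.card ≤ L →
    ∑ p ∈ U.powersetCard 2, x p ≤ (1 - δ) * ((U.card / 2 : ℕ) : ℝ)

variable {L : ℕ}

lemma Mdl.free (h : Mdl lam x δ L) (v : V) :
    δ * Z lam Finset.univ ≤ Z lam (Finset.univ.erase v) := by
  have h1 := Z_rec lam (Finset.mem_univ v)
  have h2 : ∑ w ∈ Finset.univ.erase v, lam {v, w} * Z lam ((Finset.univ.erase v).erase w) ≤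
      ∑ w ∈ Finset.univ.erase v, x {v, w} * Z lam Finset.univ := by
    refine Finset.sum_le_sum fun w hw => ?_
    have h3 := h.up {v, w} (Finset.card_pair (Finset.mem_erase.mp hw).1.symm)
    rwa [← g2_eq] at h3
  rw [← Finset.sum_mul] at h2
  nlinarith [mul_le_mul_of_nonneg_right (h.sum v) (Z_pos h.l0 Finset.univ).le]

open Classical in
/-- The vertices that are rarely free together with `a`. -/
noncomputable def cls (lam : Finset V → ℝ) (a : V) (θ : ℝ) : Finset V :=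
  Finset.univ.filter fun u => u = a ∨ g2 lam a u ≤ θ * Z lam Finset.univ

lemma mem_cls {a u : V} {θ : ℝ} : u ∈ cls lam a θ ↔ u = a ∨ g2 lam a u ≤ θ * Z lam Finset.univ := by
  simp [cls]

lemma Mdl.cls_pair (h : Mdl lam x δ L) (hδ : 0 < δ) (hδ1 : δ ≤ 1) (a : V) {θ : ℝ} (hθ : 0 ≤ θ) :
    ∀ u ∈ cls lam a θ, ∀ u' ∈ cls lam a θ, u' ≠ u →
      g2 lam u u' ≤ 3 * θ / δ * Z lam Finset.univ := by
  intro u hu u' hu' hne
  have hZ := mul_nonneg hθ (Z_pos h.l0 Finset.univ).le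
  have n1 : ∀ u v, 0 ≤ g2 lam u v := fun u v => Z_nonneg h.l0 _
  rw [div_mul_eq_mul_div, le_div_iff₀ hδ]
  by_cases h1 : u = a
  · subst h1
    have h2 := (mem_cls.mp hu').resolve_left hne
    nlinarith [n1 u u']
  by_cases h2 : u' = a
  · subst h2
    have h3 := (mem_cls.mp hu).resolve_left h1
    rw [g2_comm] at h3
    nlinarith [n1 u u']
  have h3 := g2_trans h.l0 h.free (Ne.symm h1) (Ne.symm h2) hne.symm
  have h4 := (mem_cls.mp hu).resolve_left h1
  have h5 := (mem_cls.mp hu').resolve_left h2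
  linarith

lemma Mdl.cls_step (h : Mdl lam x δ L) (hδ : 0 < δ) (hδ1 : δ ≤ 1) (a : V) {θ θ' : ℝ} (hθ : 0 < θ)
    (hθ' : 0 ≤ θ') (h1 : θ' ≤ δ * θ / 4)
    (h2 : θ' * (3 * (L : ℝ) ^ 3 * (1 + 2 / (δ * θ)) ^ 2) < δ ^ 2)
    (hL : (cls lam a θ').card ≤ L) (heq : cls lam a θ ⊆ cls lam a θ') :
    (cls lam a θ').card ≤ 1 := by
  have hZ := Z_pos h.l0 Finset.univ
  have hκ : 0 < δ * θ := mul_pos hδ hθ
  have hΛ : ∀ u ∈ cls lam a θ', ∑ w ∈ Finset.univ \ cls lam a θ', lam {u, w} ≤ 2 / (δ * θ) := by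
    intro u hu
    have h3 : ∀ w ∈ Finset.univ \ cls lam a θ', lam {u, w} ≤ 2 / (δ * θ) * x {u, w} := by
      intro w hw
      have hw1 := (Finset.mem_sdiff.mp hw).2
      have huw : u ≠ w := fun e => hw1 (e ▸ hu)
      have h4 : ¬ (w = a ∨ g2 lam a w ≤ θ * Z lam Finset.univ) :=
        fun hh => hw1 (heq (mem_cls.mpr hh))
      push Not at h4
      have h5 : δ * θ / 2 * Z lam Finset.univ ≤ g2 lam u w := by
        by_cases hua : u = a
        · subst hua
          nlinarith [h4.2, mul_pos hθ hZ]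
        · have h6 := g2_trans h.l0 h.free hua huw h4.1.symm
          have h7 := (mem_cls.mp hu).resolve_left hua
          rw [g2_comm] at h7
          nlinarith [mul_le_mul_of_nonneg_left h4.2.le hδ.le, mul_le_mul_of_nonneg_right h1 hZ.le]
      have h6 := h.up {u, w} (Finset.card_pair huw)
      rw [← g2_eq] at h6
      have h7 := (mul_le_mul_of_nonneg_left h5 (h.l0 {u, w})).trans h6
      rw [← mul_assoc] at h7
      have h8 := le_of_mul_le_mul_right h7 hZ
      rw [div_mul_eq_mul_div, le_div_iff₀ hκ]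
      linarith
    refine (Finset.sum_le_sum h3).trans ?_
    rw [← Finset.mul_sum]
    refine mul_le_of_le_one_right (by positivity) (le_trans ?_ ((h.sum u).trans (by linarith)))
    refine Finset.sum_le_sum_of_subset_of_nonneg (fun w hw => ?_) fun _ _ _ => h.x0 _
    exact Finset.mem_erase.mpr ⟨fun e => (Finset.mem_sdiff.mp hw).2 (e ▸ hu), Finset.mem_univ _⟩
  have h3 := closed_class h.l0 h.up _ (h.odd _ hL) (by positivity) (by positivity)
    (h.cls_pair hδ hδ1 a hθ') hΛ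
  have h4 : ((cls lam a θ').card : ℝ) ^ 3 ≤ (L : ℝ) ^ 3 :=
    pow_le_pow_left₀ (Nat.cast_nonneg _) (by exact_mod_cast hL) 3
  have h5 := h3.trans (mul_le_mul_of_nonneg_right h4 (by positivity))
  have h6 : (L : ℝ) ^ 3 * ((1 + 2 / (δ * θ)) ^ 2 * (3 * θ' / δ)) < δ * 1 := by
    rw [← mul_div_assoc, ← mul_div_assoc, div_lt_iff₀ hδ]
    nlinarith
  have h7 : (((cls lam a θ').card / 2 : ℕ) : ℝ) < 1 := lt_of_mul_lt_mul_left (h5.trans_lt h6) hδ.le
  have h8 : (cls lam a θ').card / 2 < 1 := by exact_mod_cast h7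
  omega

end

/-- Well inside the polytope every two vertices are free together with probability bounded
below. -/
theorem free_lower2 {δ : ℝ} (hδ : 0 < δ) (hδ1 : δ ≤ 1) : ∃ (L : ℕ) (c : ℝ), 0 < c ∧ c ≤ 1 ∧
    ∀ {V : Type} [DecidableEq V] [Fintype V] (lam x : Finset V → ℝ), Mdl lam x δ L →
      ∀ a b : V, a ≠ b → c * Z lam Finset.univ ≤ g2 lam a b := by
  obtain ⟨n, hn⟩ := exists_nat_ge (2 / δ)
  rw [div_le_iff₀ hδ] at hn
  have key : ∀ i : ℕ, ∃ θ : ℝ, 0 < θ ∧ θ ≤ 1 ∧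
      ∀ {V : Type} [DecidableEq V] [Fintype V] (lam x : Finset V → ℝ), Mdl lam x δ n →
        ∀ a : V, (cls lam a θ).card ≤ n ∧ (cls lam a θ).card ≤ max 1 (n - i) := by
    intro i
    induction i with
    | zero =>
      have h0 : (0 : ℝ) < 3 * (n : ℝ) ^ 3 + 1 := by positivity
      refine ⟨δ / (3 * (n : ℝ) ^ 3 + 1), by positivity, ?_, fun lam x h a => ?_⟩
      · rw [div_le_one h0]
        linarith [pow_nonneg (Nat.cast_nonneg (α := ℝ) n) 3]
      have h1 : (cls lam a (δ / (3 * (n : ℝ) ^ 3 + 1))).card ≤ n := by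
        by_contra hc
        obtain ⟨W, hW1, hW2⟩ := Finset.exists_subset_card_eq (not_le.mp hc).le
        have h2 := size_bound h.l0 h.free W (η := 3 * (δ / (3 * (n : ℝ) ^ 3 + 1)) / δ)
          (by positivity) fun u hu u' hu' =>
            h.cls_pair hδ hδ1 a (by positivity) u (hW1 hu) u' (hW1 hu')
        have h3 : (n : ℝ) ^ 3 * (3 * (δ / (3 * (n : ℝ) ^ 3 + 1)) / δ) < 1 := by
          have : (n : ℝ) ^ 3 * (3 * (δ / (3 * (n : ℝ) ^ 3 + 1)) / δ) =
              3 * (n : ℝ) ^ 3 / (3 * (n : ℝ) ^ 3 + 1) := by field_simp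
          rw [this, div_lt_one h0]
          linarith
        rw [hW2] at h2
        linarith
      exact ⟨h1, by omega⟩
    | succ i ih =>
      obtain ⟨θ, hθ, hθ1, ih⟩ := ih
      set A := 3 * (n : ℝ) ^ 3 * (1 + 2 / (δ * θ)) ^ 2 with hA
      have hA0 : 0 ≤ A := by positivity
      have h1 : min (δ * θ / 4) (δ ^ 2 / (A + 1)) ≤ δ * θ / 4 := min_le_left _ _
      have h2 : min (δ * θ / 4) (δ ^ 2 / (A + 1)) ≤ δ ^ 2 / (A + 1) := min_le_right _ _
      have h3 : 0 < min (δ * θ / 4) (δ ^ 2 / (A + 1)) := by positivity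
      generalize min (δ * θ / 4) (δ ^ 2 / (A + 1)) = θ' at h1 h2 h3
      have h4 : θ' ≤ θ := by nlinarith
      rw [le_div_iff₀ (by linarith)] at h2
      refine ⟨θ', h3, h4.trans hθ1, fun lam x h a => ?_⟩
      have hsub : cls lam a θ' ⊆ cls lam a θ := fun u hu => mem_cls.mpr
        ((mem_cls.mp hu).imp_right fun hh =>
          hh.trans (mul_le_mul_of_nonneg_right h4 (Z_pos h.l0 _).le))
      obtain ⟨h5, h6⟩ := ih lam x h a
      have h7 := (Finset.card_le_card hsub).trans h5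
      refine ⟨h7, ?_⟩
      by_cases heq : cls lam a θ ⊆ cls lam a θ'
      · have := h.cls_step hδ hδ1 a hθ h3.le h1 (by rw [← hA]; nlinarith) h7 heq
        omega
      · have := Finset.card_lt_card ⟨hsub, heq⟩
        omega
  obtain ⟨θ, hθ, hθ1, hk⟩ := key n
  refine ⟨n, θ, hθ, hθ1, fun lam x h a b hab => ?_⟩
  by_contra hc
  have h1 := (hk lam x h a).2
  have h2 : 1 < (cls lam a θ).card := Finset.one_lt_card.mpr
    ⟨a, mem_cls.mpr (Or.inl rfl), b, mem_cls.mpr (Or.inr (not_le.mp hc).le), hab⟩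
  omega

end Pool.Agent.Lib.MP_f8e628_co
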