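import Mathlib
import Pool.Agent.Lib.MP_f8e628_co.Marginals
import Pool.Agent.Lib.MP_f8e628_co.Ex.Free

set_option autoImplicit false
set_option linter.unusedSectionVars false

open Finset

namespace Pool.Agent.Lib.MP_f8e628_co

section
variable {V : Type*} [DecidableEq V] [Fintype V]

/-- Prescribed marginals with bounded activities, from a lower bound on the probability that two
vertices are free. -/
theorem exists_marginals2 (x : Finset V → ℝ) (hx0 : ∀ p, 0 ≤ x p) {ε : ℝ} (hε : 0 < ε)
    (hε1 : ε ≤ 1) (hfl : ∀ lam : Finset V → ℝ, (∀ p, 0 ≤ lam p) →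
      (∀ p, p.card = 2 → lam p * Z lam (Finset.univ \ p) ≤ x p * Z lam Finset.univ) →
      ∀ a b : V, a ≠ b → ε * Z lam Finset.univ ≤ g2 lam a b) :
    ∃ lam : Finset V → ℝ, (∀ p, x p ≤ lam p) ∧ (∀ p, lam p ≤ 72 / ε * x p) ∧
      ∀ p, p.card = 2 → lam p * Z lam (Finset.univ \ p) = x p * Z lam Finset.univ := by
  let f : (Finset V → ℝ) → ℝ := fun lam =>
    Real.log (Z lam Finset.univ) - ∑ p, x p * Real.log (lam p)
  have hC : 1 ≤ 36 / ε := by rw [le_div_iff₀ hε]; linarith
  have hC2 : 72 / ε = 2 * (36 / ε) := by ring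
  have hne : x ∈ Set.Icc x (fun p => 72 / ε * x p) :=
    ⟨le_rfl, fun p => by have := hx0 p; simp only; nlinarith⟩
  have hcont : ContinuousOn f (Set.Icc x (fun p => 72 / ε * x p)) := by
    refine ContinuousOn.sub ?_ (continuousOn_finsetSum _ fun p _ => ?_)
    · refine (continuous_Z _).continuousOn.log fun lam hl => ?_
      exact (Z_pos (fun p => (hx0 p).trans (hl.1 p)) _).ne'
    · by_cases hp : x p = 0
      · simp only [hp, zero_mul]
        exact continuousOn_const
      · refine continuousOn_const.mul ((continuous_apply p).continuousOn.log fun lam hl => ?_)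
        exact (lt_of_lt_of_le (lt_of_le_of_ne (hx0 p) (Ne.symm hp)) (hl.1 p)).ne'
  obtain ⟨lam, hl, hmin⟩ := isCompact_Icc.exists_isMinOn ⟨x, hne⟩ hcont
  have hl0 : ∀ p, 0 ≤ lam p := fun p => (hx0 p).trans (hl.1 p)
  have hZ := Z_pos hl0 Finset.univ
  -- the first-order inequality
  have first : ∀ p, p.card = 2 → 0 < x p → ∀ t : ℝ, 0 < t → x p ≤ t * lam p →
      t * lam p ≤ 72 / ε * x p →
      x p * (1 - t⁻¹) ≤ (t - 1) * (lam p * Z lam (Finset.univ \ p) / Z lam Finset.univ) := by
    intro p hp hxp t ht h1 h2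
    have hlp : 0 < lam p := lt_of_lt_of_le hxp (hl.1 p)
    have hmem : Function.update lam p (t * lam p) ∈ Set.Icc x (fun p => 72 / ε * x p) := by
      constructor
      · intro q
        by_cases hq : q = p
        · subst hq; simpa using h1
        · rw [Function.update_of_ne hq]; exact hl.1 q
      · intro q
        by_cases hq : q = p
        · subst hq; simpa using h2
        · rw [Function.update_of_ne hq]; exact hl.2 q
    have h3 : f lam ≤ f (Function.update lam p (t * lam p)) := hmin hmem
    simp only [f] at h3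
    have h4 : ∑ q, x q * Real.log (Function.update lam p (t * lam p) q) =
        ∑ q, x q * Real.log (lam q) + x p * Real.log t := by
      rw [← Finset.add_sum_erase _ _ (Finset.mem_univ p),
        ← Finset.add_sum_erase _ (fun q => x q * Real.log (lam q)) (Finset.mem_univ p),
        Function.update_self, Real.log_mul ht.ne' hlp.ne']
      have : ∑ q ∈ Finset.univ.erase p, x q * Real.log (Function.update lam p (t * lam p) q) =
          ∑ q ∈ Finset.univ.erase p, x q * Real.log (lam q) :=
        Finset.sum_congr rfl fun q hq => by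
          rw [Function.update_of_ne (Finset.mem_erase.mp hq).1]
      rw [this]
      ring
    set P := lam p * Z lam (Finset.univ \ p) / Z lam Finset.univ with hP
    have h5 : Z (Function.update lam p (t * lam p)) Finset.univ =
        Z lam Finset.univ * (1 + (t - 1) * P) := by
      rw [Z_update lam hp, hP]
      field_simp
    have h6 : 0 < Z (Function.update lam p (t * lam p)) Finset.univ :=
      Z_pos (fun q => (hx0 q).trans (hmem.1 q)) _
    have h7 : 0 < 1 + (t - 1) * P := by
      rw [h5] at h6
      exact (pos_iff_pos_of_mul_pos h6).mp hZ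
    rw [h4, h5, Real.log_mul hZ.ne' h7.ne'] at h3
    have h8 := Real.log_le_sub_one_of_pos h7
    have h9 := Real.one_sub_inv_le_log_of_pos ht
    nlinarith [mul_le_mul_of_nonneg_left h9 hxp.le]
  have upper : ∀ p, p.card = 2 → lam p * Z lam (Finset.univ \ p) ≤ x p * Z lam Finset.univ := by
    intro p hp
    have hB : Z lam (Finset.univ \ p) ≤ Z lam Finset.univ := Z_mono hl0 (Finset.subset_univ _)
    by_cases hxp : x p = 0
    · have : lam p = 0 := le_antisymm (by simpa [hxp] using hl.2 p) (hl0 p)
      simp [this, hxp]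
    have hxp' : 0 < x p := lt_of_le_of_ne (hx0 p) (Ne.symm hxp)
    have hlp : 0 < lam p := lt_of_lt_of_le hxp' (hl.1 p)
    by_contra hlt
    push Not at hlt
    set P := lam p * Z lam (Finset.univ \ p) / Z lam Finset.univ with hP
    have hP1 : x p < P := by rw [hP, lt_div_iff₀ hZ]; exact hlt
    have hP2 : P ≤ lam p := by
      rw [hP, div_le_iff₀ hZ]
      exact mul_le_mul_of_nonneg_left hB hlp.le
    have hP0 : 0 < P := hxp'.trans hP1
    set t := (P + x p) / (2 * P) with ht
    have ht0 : 0 < t := by positivity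
    have ht1 : t < 1 := by rw [ht, div_lt_one (by positivity)]; linarith
    have htP : t * P = (P + x p) / 2 := by rw [ht]; field_simp
    have h1 := first p hp hxp' t ht0 (by nlinarith) (by
      have := hl.2 p
      simp only at this
      nlinarith)
    rw [← hP] at h1
    have h2 : x p * (1 - t⁻¹) * t = x p * (t - 1) := by field_simp
    have h3 := mul_le_mul_of_nonneg_right h1 ht0.le
    rw [h2] at h3
    nlinarith
  refine ⟨lam, hl.1, hl.2, fun p hp => le_antisymm (upper p hp) ?_⟩
  by_cases hxp : x p = 0
  · rw [hxp, zero_mul]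
    exact mul_nonneg (hl0 p) (Z_nonneg hl0 _)
  have hxp' : 0 < x p := lt_of_le_of_ne (hx0 p) (Ne.symm hxp)
  have hlp : 0 < lam p := lt_of_lt_of_le hxp' (hl.1 p)
  by_contra hlt
  push Not at hlt
  set P := lam p * Z lam (Finset.univ \ p) / Z lam Finset.univ with hP
  have hP1 : P < x p := by rw [hP, div_lt_iff₀ hZ]; exact hlt
  have hB : ε / 36 * Z lam Finset.univ ≤ Z lam (Finset.univ \ p) := by
    obtain ⟨a, b, hab, rfl⟩ := Finset.card_eq_two.mp hp
    have h3 := hfl lam hl0 upper a b hab
    rw [g2_eq] at h3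
    linarith [mul_pos hε hZ]
  have hP2 : ε / 36 * lam p ≤ P := by
    rw [hP, le_div_iff₀ hZ]
    nlinarith [mul_le_mul_of_nonneg_left hB hlp.le]
  have hP0 : 0 < P := lt_of_lt_of_le (by positivity) hP2
  have hP3 : lam p ≤ 36 / ε * x p := by
    have : lam p = 36 / ε * (ε / 36 * lam p) := by field_simp
    rw [this]
    exact mul_le_mul_of_nonneg_left (hP2.trans hP1.le) (by positivity)
  set t := 1 + (x p - P) / (2 * x p) with ht
  have hτ0 : 0 < (x p - P) / (2 * x p) := div_pos (by linarith) (by positivity)
  have hτ1 : (x p - P) / (2 * x p) ≤ 1 := by rw [div_le_one (by positivity)]; linarith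
  have ht0 : 0 < t := by linarith
  have ht1 : 1 < t := by linarith
  have htx : (t - 1) * x p = (x p - P) / 2 := by rw [ht]; field_simp; ring
  have h1 := first p hp hxp' t ht0 (by nlinarith [hl.1 p]) (by rw [hC2]; nlinarith)
  rw [← hP] at h1
  have h2 : x p * (1 - t⁻¹) * t = x p * (t - 1) := by field_simp
  have h3 := mul_le_mul_of_nonneg_right h1 ht0.le
  rw [h2] at h3
  have h4 : x p ≤ P * t := by
    have : (t - 1) * x p ≤ (t - 1) * (P * t) := by linarith
    exact le_of_mul_le_mul_left this (by linarith)
  nlinarith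

end

end Pool.Agent.Lib.MP_f8e628_co
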