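import Mathlib
import Pool.Agent.Lib.MP_f8e628_co.Heavy
import Pool.Agent.Lib.MP_f8e628_co.Ex.Marg

set_option autoImplicit false
set_option linter.unusedSectionVars false

open Finset

namespace Pool.Agent.Lib.MP_f8e628_co

section
variable {V : Type*} [DecidableEq V] [Fintype V]
variable {H : Finset (Finset V)} {θ D ω : ℝ}

lemma mu_le_cdg (p : Finset V) : mu H θ p ≤ cdg H p :=
  Finset.card_le_card fun _ he => Finset.mem_filter.mpr
    ⟨(Finset.mem_filter.mp (Finset.mem_filter.mp he).1).1,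
      (mem_hvy.mp (Finset.mem_filter.mp he).2).1⟩

lemma cdg_le_mu (h3 : ∀ e ∈ H, e.card = 3) (hD : 0 < D) (hω : 0 < ω)
    (hdeg : ∀ v, ((H.filter (fun e => v ∈ e)).card : ℝ) ≤ D) {p : Finset V} (hp2 : p.card = 2)
    (hp : D / ω < (cdg H p : ℝ)) : (cdg H p : ℝ) ≤ (mu H (D / ω) p : ℝ) + 4 * ω := by
  set θ := D / ω with hθ
  have h1 : H.filter (fun e => p ⊆ e) ⊆ (Hg H θ).filter (fun e => p ∈ hvy H θ e) ∪
      (p.biUnion (fun a => hn H θ a)).image (fun c => insert c p) := by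
    intro e he
    obtain ⟨h4, h5⟩ := Finset.mem_filter.mp he
    have h6 : p ∈ hvy H θ e := mem_hvy.mpr ⟨h5, hp2, hp⟩
    by_cases hg : (hvy H θ e).card ≤ 1
    · exact Finset.mem_union_left _
        (Finset.mem_filter.mpr ⟨Finset.mem_filter.mpr ⟨h4, hg⟩, h6⟩)
    refine Finset.mem_union_right _ ?_
    obtain ⟨q, hq, hne⟩ := Finset.exists_mem_ne (not_le.mp hg) p
    obtain ⟨q1, q2, q3⟩ := mem_hvy.mp hq
    obtain ⟨a, ha, c, hc, rfl, rfl⟩ := two_pairs (h3 e h4) h5 q1 hp2 q2 hne.symm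
    refine Finset.mem_image.mpr ⟨c, Finset.mem_biUnion.mpr ⟨a, ha, mem_hn.mpr ⟨?_, q3⟩⟩, rfl⟩
    exact fun h => hc (h ▸ ha)
  have h2 := (Finset.card_le_card h1).trans (Finset.card_union_le _ _)
  have h4 : (((p.biUnion (fun a => hn H θ a)).image (fun c => insert c p)).card : ℝ) ≤ 4 * ω := by
    refine le_trans (by exact_mod_cast Finset.card_image_le.trans Finset.card_biUnion_le :
      _ ≤ ∑ a ∈ p, ((hn H θ a).card : ℝ)) ?_
    refine (Finset.sum_le_sum fun a _ => card_hn_le h3 hD hω hdeg a).trans ?_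
    rw [Finset.sum_const, nsmul_eq_mul, hp2]
    push_cast
    linarith
  have h5 : (cdg H p : ℝ) ≤ (mu H θ p : ℝ) +
      (((p.biUnion (fun a => hn H θ a)).image (fun c => insert c p)).card : ℝ) := by
    exact_mod_cast h2
  linarith

open Classical in
/-- The good triples followed by the test `(v, w)`: those at `v` if `v = w`, and those with heavy
pair `{v, w}` otherwise. -/
noncomputable def Ft (H : Finset (Finset V)) (θ : ℝ) (v w : V) : Finset (Finset V) :=
  (Hg H θ).filter (fun e => v ∈ e ∧ (v = w ∨ {v, w} ∈ hvy H θ e))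

lemma mem_Ft {v w : V} {e : Finset V} :
    e ∈ Ft H θ v w ↔ e ∈ Hg H θ ∧ v ∈ e ∧ (v = w ∨ {v, w} ∈ hvy H θ e) := by
  simp [Ft]

lemma Ft_subset (v w : V) : Ft H θ v w ⊆ (Hg H θ).filter (fun e => v ∈ e) :=
  fun _ he => Finset.mem_filter.mpr ⟨(mem_Ft.mp he).1, (mem_Ft.mp he).2.1⟩

lemma cdg_self (v : V) : cdg H {v, v} = (H.filter (fun e => v ∈ e)).card := by
  simp [cdg]

lemma cdg_le_deg (v w : V) : cdg H {v, w} ≤ (H.filter (fun e => v ∈ e)).card :=
  Finset.card_le_card fun _ he => Finset.mem_filter.mpr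
    ⟨(Finset.mem_filter.mp he).1, (Finset.mem_filter.mp he).2 (Finset.mem_insert_self _ _)⟩

lemma cdg_le_Ft (h3 : ∀ e ∈ H, e.card = 3) (hD : 0 < D) (hω : 0 < ω)
    (hdeg : ∀ v, ((H.filter (fun e => v ∈ e)).card : ℝ) ≤ D) (v w : V) :
    (cdg H {v, w} : ℝ) ≤ ((Ft H (D / ω) v w).card : ℝ) + (8 * ω ^ 2 + 4 * ω + D / ω) := by
  have p1 : 0 ≤ 8 * ω ^ 2 := by positivity
  have p2 : 0 ≤ D / ω := by positivity
  have p3 : (0 : ℝ) ≤ (Ft H (D / ω) v w).card := Nat.cast_nonneg _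
  by_cases hvw : v = w
  · subst hvw
    have h1 := deg_le_good h3 hD hω hdeg v
    have h2 : (((Hg H (D / ω)).filter (fun e => v ∈ e)).card : ℝ) ≤ (Ft H (D / ω) v v).card :=
      Nat.cast_le.mpr (Finset.card_le_card fun e he => mem_Ft.mpr
        ⟨(Finset.mem_filter.mp he).1, (Finset.mem_filter.mp he).2, Or.inl rfl⟩)
    rw [cdg_self]
    linarith
  by_cases hh : D / ω < (cdg H {v, w} : ℝ)
  · have h1 := cdg_le_mu h3 hD hω hdeg (Finset.card_pair hvw) hh
    have h2 : (mu H (D / ω) {v, w} : ℝ) ≤ (Ft H (D / ω) v w).card :=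
      Nat.cast_le.mpr (Finset.card_le_card fun e he => mem_Ft.mpr ⟨(Finset.mem_filter.mp he).1,
        (mem_hvy.mp (Finset.mem_filter.mp he).2).1 (Finset.mem_insert_self _ _),
        Or.inr (Finset.mem_filter.mp he).2⟩)
    linarith
  · linarith [not_lt.mp hh]

theorem heavy_setup2 (h3 : ∀ e ∈ H, e.card = 3) (hD : 0 < D) (hω : 0 < ω)
    (hdeg : ∀ v, ((H.filter (fun e => v ∈ e)).card : ℝ) ≤ D) {δ ε K β0 : ℝ} {L : ℕ}
    (hodd : ∀ U : Finset V, U.card ≤ L →
      ∑ p ∈ U.powersetCard 2, (cdg H p : ℝ) ≤ D * ((U.card / 2 : ℕ) : ℝ))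
    (hδ : 0 < δ) (hε : 0 < ε) (hε1 : ε ≤ 1)
    (hfl : ∀ lam x : Finset V → ℝ, Mdl lam x δ L →
      ∀ a b : V, a ≠ b → ε * Z lam Finset.univ ≤ g2 lam a b)
    (hK0 : 0 < K) (hK : D ≤ (1 - δ) * K) (hβ0 : 0 < β0)
    (hβ1 : 1 ≤ β0 * (D / ω - 4 * ω)) (hβ2 : D / ω ≤ β0 * (K - D)) (hβ3 : 1 ≤ β0 * K) :
    ∃ lam : Finset V → ℝ, Setup (Hg H (D / ω)) (hvy H (D / ω)) lam K (72 / ε) β0 ∧
      ∀ u w, lam {u, w} ≠ 0 → ∃ e ∈ H, u ∈ e ∧ w ∈ e := by
  set θ := D / ω with hθ
  have hg := geo_Hg (θ := θ) h3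
  have hsum0 : ∀ v, ∑ w ∈ Finset.univ.erase v, (mu H θ {v, w} : ℝ) ≤ D := fun v => by
    have h1 := light_add_heavy (θ := θ) h3 v
    have h2 : (0 : ℝ) ≤ (Js (Hg H θ) (hvy H θ) ∅ v).card := Nat.cast_nonneg _
    linarith [hdeg v]
  have hsum : ∀ v, ∑ w ∈ Finset.univ.erase v, (mu H θ {v, w} : ℝ) / K ≤ 1 - δ := fun v => by
    rw [← Finset.sum_div, div_le_iff₀ hK0]
    exact (hsum0 v).trans hK
  have hodd' : ∀ U : Finset V, U.card ≤ L →
      ∑ p ∈ U.powersetCard 2, (mu H θ p : ℝ) / K ≤ (1 - δ) * ((U.card / 2 : ℕ) : ℝ) := by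
    intro U hU
    rw [← Finset.sum_div, div_le_iff₀ hK0]
    have h1 : ∑ p ∈ U.powersetCard 2, (mu H θ p : ℝ) ≤ ∑ p ∈ U.powersetCard 2, (cdg H p : ℝ) :=
      Finset.sum_le_sum fun p _ => Nat.cast_le.mpr (mu_le_cdg p)
    have h2 := mul_le_mul_of_nonneg_right hK (Nat.cast_nonneg (α := ℝ) (U.card / 2))
    linarith [hodd U hU]
  obtain ⟨lam, hl1, hl2, hl3⟩ := exists_marginals2 (fun p => (mu H θ p : ℝ) / K)
    (fun p => by positivity) hε hε1 fun lam h0 hup =>
      hfl lam _ ⟨h0, fun p => by positivity, hup, hsum, hodd'⟩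
  have hl0 : ∀ p, 0 ≤ lam p := fun p => le_trans (by positivity) (hl1 p)
  have hZ := Z_pos hl0 Finset.univ
  have hPo : ∀ e ∈ Hg H θ, ∀ v, Po (hvy H θ) e v = ∅ ∨
      ∃ p ∈ hvy H θ e, v ∈ p ∧ Po (hvy H θ) e v = {p} := by
    intro e he v
    rcases (Po (hvy H θ) e v).eq_empty_or_nonempty with h1 | ⟨p, h1⟩
    · exact Or.inl h1
    · obtain ⟨h4, h5⟩ := Finset.mem_filter.mp h1
      refine Or.inr ⟨p, h4, h5, Finset.eq_singleton_iff_unique_mem.mpr ⟨h1, fun q hq => ?_⟩⟩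
      exact hg.uniq e he q (Finset.mem_filter.mp hq).1 p h4
  have nob1 : ∀ p v, p.card = 2 → v ∈ p → nob lam K {p} v = (mu H θ p : ℝ) := by
    intro p v hp2 hv
    have h1 := hl3 p hp2
    unfold nob qf ob wt
    rw [cov_singleton, Finset.insert_eq_of_mem hv, Finset.prod_singleton, ← mul_div_assoc, h1]
    field_simp
  have nob0 : ∀ v, nob lam K ∅ v = K - ∑ w ∈ Finset.univ.erase v, (mu H θ {v, w} : ℝ) := by
    intro v
    have h1 := Z_rec lam (Finset.mem_univ v)
    have h2 : ∑ w ∈ Finset.univ.erase v, lam {v, w} * Z lam ((Finset.univ.erase v).erase w) =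
        ∑ w ∈ Finset.univ.erase v, (mu H θ {v, w} : ℝ) / K * Z lam Finset.univ := by
      refine Finset.sum_congr rfl fun w hw => ?_
      have h4 : (Finset.univ.erase v).erase w = Finset.univ \ {v, w} := by
        ext y
        simp only [Finset.mem_erase, Finset.mem_sdiff, Finset.mem_insert, Finset.mem_singleton]
        tauto
      rw [h4]
      exact hl3 {v, w} (Finset.card_pair (Finset.mem_erase.mp hw).1.symm)
    rw [h2, ← Finset.sum_mul, ← Finset.sum_div] at h1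
    unfold nob qf ob wt
    rw [cov_empty, Finset.prod_empty, one_mul, Finset.insert_empty,
      Finset.sdiff_singleton_eq_erase]
    have h4 : Z lam (Finset.univ.erase v) = Z lam Finset.univ *
        (1 - (∑ w ∈ Finset.univ.erase v, (mu H θ {v, w} : ℝ)) / K) := by linarith
    rw [h4]
    field_simp
  have hmu : ∀ e, ∀ p ∈ hvy H θ e, 1 ≤ β0 * (mu H θ p : ℝ) := by
    intro e p hp
    obtain ⟨-, h1, h2⟩ := mem_hvy.mp hp
    exact hβ1.trans (mul_le_mul_of_nonneg_left (mu_ge h3 hD hω hdeg h1 h2) hβ0.le)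
  refine ⟨lam, ⟨hg, hK0, hl0, by positivity, fun u => ?_, hβ0, ?_, ?_, ?_⟩, ?_⟩
  · refine (Finset.sum_le_sum fun w _ => hl2 {u, w}).trans ?_
    rw [← Finset.mul_sum]
    exact mul_le_of_le_one_right (by positivity) ((hsum u).trans (by linarith))
  · intro e he v hv
    rcases hPo e he v with h1 | ⟨p, h1, h2, h4⟩
    · rw [h1, nob0]
      have h5 := light_add_heavy (θ := θ) h3 v
      nlinarith [hdeg v]
    · rw [h4, nob1 p v (mem_hvy.mp h1).2.1 h2]
      refine Nat.cast_le.mpr (Finset.card_le_card fun f hf => ?_)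
      obtain ⟨h5, -, h6⟩ := Finset.mem_filter.mp hf
      have h7 : p ∈ Po (hvy H θ) f v := h6 ▸ Finset.mem_singleton_self p
      exact Finset.mem_filter.mpr ⟨h5, (Finset.mem_filter.mp h7).1⟩
  · intro e he v hv u hu
    rcases hPo e he v with h1 | ⟨p, h1, h2, h4⟩
    · rw [h1] at hu ⊢
      rw [nob0]
      have huv : u ≠ v := fun hh => hu (by simp [ob, hh])
      have h5 : β0 * (K - D) ≤ β0 * (K - ∑ w ∈ Finset.univ.erase v, (mu H θ {v, w} : ℝ)) :=
        mul_le_mul_of_nonneg_left (by linarith [hsum0 v]) hβ0.le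
      refine le_trans ?_ (hβ2.trans h5)
      rcases ((Js (Hg H θ) (hvy H θ) ∅ v).filter (fun f => u ∈ f)).eq_empty_or_nonempty with
        h6 | ⟨f, hf⟩
      · rw [h6]
        simp only [Finset.card_empty, Nat.cast_zero]
        positivity
      · obtain ⟨h6, h7⟩ := Finset.mem_filter.mp hf
        obtain ⟨h8, h9, h10⟩ := Finset.mem_filter.mp h6
        have h11 : (cdg H {v, u} : ℝ) ≤ θ := by
          by_contra hh
          have h12 : {v, u} ∈ Po (hvy H θ) f v := Finset.mem_filter.mpr ⟨mem_hvy.mpr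
            ⟨Finset.insert_subset h9 (Finset.singleton_subset_iff.mpr h7),
              Finset.card_pair huv.symm, not_le.mp hh⟩, by simp⟩
          rw [h10] at h12
          exact Finset.notMem_empty _ h12
        refine le_trans (Nat.cast_le.mpr (Finset.card_le_card fun f' hf' => ?_)) h11
        obtain ⟨h12, h13⟩ := Finset.mem_filter.mp hf'
        obtain ⟨h14, h15, -⟩ := Finset.mem_filter.mp h12
        exact Finset.mem_filter.mpr ⟨(Finset.mem_filter.mp h14).1,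
          Finset.insert_subset h15 (Finset.singleton_subset_iff.mpr h13)⟩
    · rw [h4] at hu ⊢
      rw [nob1 p v (mem_hvy.mp h1).2.1 h2]
      refine le_trans ?_ (hmu e p h1)
      have hup : u ∉ p := fun hh => hu (by simp [ob, hh])
      have h5 : ∀ f ∈ (Js (Hg H θ) (hvy H θ) {p} v).filter (fun f => u ∈ f), f = insert u p := by
        intro f hf
        obtain ⟨h6, h7⟩ := Finset.mem_filter.mp hf
        obtain ⟨h8, -, h10⟩ := Finset.mem_filter.mp h6
        have h11 : p ∈ Po (hvy H θ) f v := h10 ▸ Finset.mem_singleton_self p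
        have h12 := hg.pair f h8 p (Finset.mem_filter.mp h11).1
        symm
        apply Finset.eq_of_subset_of_card_le (Finset.insert_subset h7 h12.1)
        rw [Finset.card_insert_of_notMem hup, h12.2, hg.card3 f h8]
      exact_mod_cast Finset.card_le_one.mpr fun f hf f' hf' => (h5 f hf).trans (h5 f' hf').symm
  · intro e he
    rcases (hvy H θ e).eq_empty_or_nonempty with h1 | ⟨p, h1⟩
    · rw [h1]
      simpa [wt] using hβ3
    · have h2 : hvy H θ e = {p} :=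
        Finset.eq_singleton_iff_unique_mem.mpr ⟨h1, fun q hq => hg.uniq e he q hq p h1⟩
      rw [h2]
      refine (hmu e p h1).trans (mul_le_mul_of_nonneg_left ?_ hβ0.le)
      have h4 := hl1 p
      simp only [wt, Finset.prod_singleton]
      rw [div_le_iff₀ hK0] at h4
      linarith
  · intro u w hl
    have h1 : mu H θ {u, w} ≠ 0 := by
      intro h0
      have h2 := hl2 {u, w}
      simp only [h0, Nat.cast_zero, zero_div, mul_zero] at h2
      exact hl (le_antisymm h2 (hl0 _))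
    obtain ⟨e, he⟩ := Finset.card_pos.mp (Nat.pos_of_ne_zero h1)
    obtain ⟨h2, h4⟩ := Finset.mem_filter.mp he
    have h5 := (mem_hvy.mp h4).1
    exact ⟨e, (Finset.mem_filter.mp h2).1, h5 (by simp), h5 (by simp)⟩

end

end Pool.Agent.Lib.MP_f8e628_co
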