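import Mathlib
import Pool.Agent.Lib.MP_f8e628_co.Many
import Pool.Agent.Lib.MP_f8e628_co.Ex.Set
import Pool.Agent.Lib.MP_f8e628_co.Ex.Mean

set_option autoImplicit false
set_option linter.unusedSectionVars false

open Finset

namespace Pool.Agent.Lib.MP_f8e628_co

/-- Many simple triple systems with bounded degrees and bounded densities on small sets: one
matching from each, covering every vertex and every pair about as often as the bounds allow. -/
theorem many2 (ε : ℝ) (hε : 0 < ε) : ∃ L : ℕ, ∀ η : ℝ, 0 < η → η ≤ 1 → ∃ (k N : ℕ) (D0 : ℝ),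
    ∀ {V C : Type} [Fintype V] [DecidableEq V] [Fintype C] [DecidableEq C]
    (H : C → Finset (Finset V)) (D : ℝ) (_ : D0 ≤ D) (_ : ∀ c, ∀ e ∈ H c, e.card = 3)
    (_ : ∀ c v, (((H c).filter (fun e => v ∈ e)).card : ℝ) ≤ D)
    (_ : ∀ c (U : Finset V), U.card ≤ L →
      ∑ p ∈ U.powersetCard 2, (cdg (H c) p : ℝ) ≤ D * ((U.card / 2 : ℕ) : ℝ))
    (adj : V → V → Prop) (_ : ∀ u, adj u u) (_ : ∀ u v, adj u v → adj v u)
    (_ : ∀ c, ∀ e ∈ H c, ∀ u ∈ e, ∀ u' ∈ e, adj u u') (Δ : ℝ) (_ : 1 ≤ Δ)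
    (_ : ∀ u, ((ball adj 1 u).card : ℝ) ≤ Δ)
    (s : ℝ) (_ : 0 < s) (_ : (Fintype.card C : ℝ) ≤ s) (a : ℝ) (_ : 0 ≤ a)
    (_ : 4 * Real.exp (-(a ^ 2 / (2 * s))) * Δ ^ k ≤ 1),
    ∃ P : C → Finset (Finset V), (∀ c, P c ⊆ H c) ∧
      (∀ c, ∀ e ∈ P c, ∀ e' ∈ P c, e ≠ e' → Disjoint e e') ∧
      ∀ v w, (1 - η) ^ 2 / ((1 + ε) * D) * ∑ c, (cdg (H c) {v, w} : ℝ) -
        η * s - (N + 1) * a ≤ ∑ c, ind (∃ e ∈ P c, v ∈ e ∧ w ∈ e) := by
  classical
  have hδ : 0 < ε / (1 + ε) := by positivity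
  obtain ⟨L, ε', hε'0, hε'1, hfl⟩ := free_lower2 hδ (by rw [div_le_one (by linarith)]; linarith)
  refine ⟨L, fun η hη hη1 => ?_⟩
  obtain ⟨γ0, N, hγ0, hnib⟩ := nibble η hη
  obtain ⟨β0, R, γ1, γ2, γ, hβ0, hq, hγp, hγ, hγ0'⟩ :=
    par_exists (Λ := 72 / ε') (by positivity) hη hη1 hγ0
  set ω := 1 / (β0 * ε) + 2 / η with hω
  have hωp : 0 < ω := by positivity
  refine ⟨R + 14, N, ω * (1 / β0 + 4 * ω) + 1 / β0 + 2 * (8 * ω ^ 2 + 4 * ω) / η, ?_⟩
  intro V C _ _ _ _ H D hD h3 hdeg hodd adj hrefl hsymm hadj Δ hΔ1 hΔ s hs0 hs a ha hnum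
  have t1 : 0 < ω * (1 / β0 + 4 * ω) := by positivity
  have t2 : 0 < 1 / β0 := by positivity
  have t3 : 0 < 2 * (8 * ω ^ 2 + 4 * ω) / η := by positivity
  have hD0 : 0 < D := by linarith
  set K := (1 + ε) * D with hK
  have hK0 : 0 < K := by positivity
  have hKD : D ≤ K := by rw [hK]; nlinarith
  have hβ1 : 1 ≤ β0 * (D / ω - 4 * ω) := by
    have h1 : 1 / β0 + 4 * ω ≤ D / ω := by rw [le_div_iff₀ hωp]; linarith
    have h2 : β0 * (1 / β0) = 1 := by field_simp
    nlinarith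
  have hβ2 : D / ω ≤ β0 * (K - D) := by
    have h1 : D / ω ≤ D / (1 / (β0 * ε)) := div_le_div_of_nonneg_left hD0.le (by positivity)
      (by rw [hω]; exact le_add_of_nonneg_right (by positivity))
    refine h1.trans (le_of_eq ?_)
    rw [hK]
    field_simp
    ring
  have hβ3 : 1 ≤ β0 * K := by
    have h2 : β0 * (1 / β0) = 1 := by field_simp
    have h1 : 1 / β0 ≤ K := by linarith
    nlinarith
  have hω2 : 8 * ω ^ 2 + 4 * ω + D / ω ≤ η * K := by
    have h1 : 2 * (8 * ω ^ 2 + 4 * ω) / η ≤ K := by linarith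
    rw [div_le_iff₀ hη] at h1
    have h2 : D / ω ≤ D / (2 / η) := div_le_div_of_nonneg_left hD0.le (by positivity)
      (by rw [hω]; exact le_add_of_nonneg_left (by positivity))
    have h4 : D / (2 / η) = η * D / 2 := by field_simp
    nlinarith [mul_le_mul_of_nonneg_left hKD hη.le]
  have hKε : D ≤ (1 - ε / (1 + ε)) * K := by
    have : (1 - ε / (1 + ε)) * K = D := by rw [hK]; field_simp; ring
    exact this.ge
  choose lam hset hlam using fun c =>
    heavy_setup2 (h3 c) hD0 hωp (hdeg c) (hodd c) hδ hε'0 hε'1 (fun l x => hfl l x) hK0 hKε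
      hβ0 hβ1 hβ2 hβ3
  have hadjG : ∀ c, ∀ e ∈ Hg (H c) (D / ω), ∀ u ∈ e, ∀ u' ∈ e, adj u u' :=
    fun c e he => hadj c e (Finset.mem_filter.mp he).1
  have hadjl : ∀ c u w, u ≠ w → lam c {u, w} ≠ 0 → adj u w := by
    intro c u w _ hl
    obtain ⟨e, he, hu, hw⟩ := hlam c u w hl
    exact hadj c e he u hu w hw
  have hnum' : ∀ j ≤ R + 14, 4 * Real.exp (-(a ^ 2 / (2 * s))) * Δ ^ j ≤ 1 := fun j hj =>
    le_trans (mul_le_mul_of_nonneg_left (pow_le_pow_right₀ hΔ1 hj) (by positivity)) hnum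
  have hζ : 0 < 2 * (η / 6) := by positivity
  have hXle : ∀ c M v w, ∑ e ∈ Ft (H c) (D / ω) v w,
      V2 (Hg (H c) (D / ω)) (hvy (H c) (D / ω)) (lam c) K (2 * (η / 6)) M e ≤
      load (Hg (H c) (D / ω)) (fun e => e)
        (V2 (Hg (H c) (D / ω)) (hvy (H c) (D / ω)) (lam c) K (2 * (η / 6)) M) v :=
    fun c M v w => Finset.sum_le_sum_of_subset_of_nonneg (Ft_subset v w)
      fun e _ _ => (hset c).V2_nonneg hζ M e
  obtain ⟨M, hM, hX⟩ := lc (C := C) (J := V × V) (Ω := Finset (Finset V))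
    (fun c M => md (lam c) Finset.univ M / Z (lam c) Finset.univ)
    (fun c M => div_nonneg (md_nonneg (hset c).lam0 _ _) (Z_nonneg (hset c).lam0 _))
    (fun c => by
      rw [← Finset.sum_div]
      exact div_self (Z_pos (hset c).lam0 _).ne')
    (fun _ => Finset.univ) s hs0 (fun _ => by simpa using hs)
    (fun j c M => ∑ e ∈ Ft (H c) (D / ω) j.1 j.2,
      V2 (Hg (H c) (D / ω)) (hvy (H c) (D / ω)) (lam c) K (2 * (η / 6)) M e)
    (fun j c M _ => ⟨Finset.sum_nonneg fun e _ => (hset c).V2_nonneg hζ M e,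
      (hXle c M j.1 j.2).trans ((hset c).load_V2_le hζ M j.1)⟩)
    (fun j c => (1 - η) / K * (cdg (H c) {j.1, j.2} : ℝ) - η)
    (fun j c M M' => ∀ p, ¬ p ⊆ ball adj (R + 3) j.1 → (p ∈ M ↔ p ∈ M'))
    (fun j => pball adj (R + 5) j.1) (Δ ^ (R + 5 + 1)) (fun j => card_pball_le hΔ _ _)
    (one_le_pow₀ hΔ1)
    (by
      intro j j' hj' c _ _ M M' hR
      by_cases hb : adj j'.1 j'.2
      · refine (hset c).geo.sum_V2_local hrefl (hadjG c) j'.1 (Ft_subset _ _)
          fun p ⟨x, hx1, hx2⟩ => hR p fun hsub => hj' ?_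
        have h1 : near adj (R + 3 + 2) j.1 j'.1 :=
          near_trans (mem_ball.mp (hsub hx1)) (near_symm hsymm hx2)
        exact mem_pball.mpr ⟨h1, hb⟩
      · refine Finset.sum_congr rfl fun e he => absurd ?_ hb
        obtain ⟨h1, h2, h4 | h4⟩ := mem_Ft.mp he
        · exact h4 ▸ hrefl _
        · exact hadjG c e h1 _ h2 _ ((mem_hvy.mp h4).1 (by simp)))
    (by
      intro j c _ g hg0 hg
      have h1 := (hset c).mean2 hq hrefl (hadjG c) (hadjl c) j.1 (Ft_subset j.1 j.2) g hg0 hg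
      have hZ := Z_pos (hset c).lam0 Finset.univ
      simp only [div_mul_eq_mul_div]
      rw [← Finset.sum_div, ← Finset.sum_div, ← mul_div_assoc]
      refine div_le_div_of_nonneg_right (le_trans (mul_le_mul_of_nonneg_right ?_
        (Finset.sum_nonneg fun M _ => mul_nonneg (md_nonneg (hset c).lam0 _ _) (hg0 M))) h1) hZ.le
      exact num_mean hη hη1 hγp hγ hK0 hω2 (Nat.cast_nonneg _)
        (cdg_le_Ft (h3 c) hD0 hωp (hdeg c) j.1 j.2))
    a ha (hnum' _ (by omega))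
  have hM1 : ∀ c, IsMat Finset.univ (M c) := by
    intro c
    by_contra hh
    exact hM c (by simp [md, ind_neg hh])
  have hM2 : ∀ c, ∀ p ∈ M c, lam c p ≠ 0 := by
    intro c p hp h0
    have : wt (lam c) (M c) = 0 := Finset.prod_eq_zero hp h0
    exact hM c (by simp [md, this])
  have hrep : ∀ c v, adj v (rep (M c) v) := by
    intro c v
    by_cases hv : v ∈ cov (M c)
    · obtain ⟨p, hp, hvp⟩ := mem_cov.mp hv
      have h1 := pair_sub_ball hrefl (hadjl c) ((hM1 c).1 p hp).2 (hM2 c p hp) hvp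
        (show near adj 0 v v from rfl) (rep_mem (hM1 c) hp hvp)
      obtain ⟨w, hw1, hw2⟩ := mem_ball.mp h1
      exact (show v = w from hw1) ▸ hw2
    · rw [rep_free hv]
      exact hrefl v
  have hdiag : Function.Injective fun x : V => (x, x) := fun x y h => congrArg Prod.fst h
  obtain ⟨P, hP1, hP2, hP3⟩ := hnib (padj adj) (fun _ => Or.inl rfl)
    (fun j j' h => h.imp Eq.symm fun h => ⟨h.2.1, h.1, hsymm _ _ h.2.2⟩) (Δ ^ 2) (one_le_pow₀ hΔ1)
    (card_ball_padj hrefl hΔ1 hΔ)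
    (fun c => Es (Hg (H c) (D / ω)) (hvy (H c) (D / ω)) (lam c) K (2 * (η / 6)) (M c))
    (fun c e => (e.image (rep (M c))).image fun x => (x, x))
    (fun c j => if j.1 = j.2 ∨ {j.1, j.2} ∈ M c then (rep (M c) j.1, rep (M c) j.1) else j)
    (by
      intro c e he u hu u' hu'
      obtain ⟨h1, h2⟩ := mem_Es.mp he
      have h4 := (hset c).geo.image_subset (hM1 c) h1 (V2_av h2)
      obtain ⟨x, hx, rfl⟩ := Finset.mem_image.mp hu
      obtain ⟨x', hx', rfl⟩ := Finset.mem_image.mp hu'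
      exact Or.inr ⟨hrefl _, hrefl _, hadjG c e h1 x (h4 hx) x' (h4 hx')⟩)
    (by
      intro c j
      by_cases hj : j.1 = j.2 ∨ {j.1, j.2} ∈ M c
      · rw [if_pos hj]
        refine Or.inr ⟨?_, hrefl _, hrep c _⟩
        by_cases h1 : j.1 = j.2
        · exact h1 ▸ hrefl _
        · exact hadjl c _ _ h1 (hM2 c _ (hj.resolve_left h1))
      · rw [if_neg hj]
        exact Or.inl rfl)
    s hs0 hs a ha (by rw [← pow_mul]; exact hnum' _ (by omega))
    (fun c e => V2 (Hg (H c) (D / ω)) (hvy (H c) (D / ω)) (lam c) K (2 * (η / 6)) (M c) e *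
      ind (e ∈ Hg (H c) (D / ω)))
    (fun c =>
      have h1 := (hset c).fracM hζ (hM1 c)
      FracM.image ⟨h1.nonneg, h1.supp, h1.ne, h1.card, h1.load_le,
        fun u u' huu => (h1.codeg u u' huu).trans hγ0'⟩ hγ0.le hdiag)
  refine ⟨P, fun c e he => (Finset.mem_filter.mp (mem_Es.mp (hP1 c e he)).1).1, ?_,
    fun v w => ?_⟩
  · intro c e he e' he' hne
    have h1 := hP2 c e he e' he' hne
    rw [Finset.disjoint_left] at h1 ⊢
    intro x hx hx'
    exact h1 (Finset.mem_image_of_mem _ (Finset.mem_image_of_mem _ hx))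
      (Finset.mem_image_of_mem _ (Finset.mem_image_of_mem _ hx'))
  · have h1 := hP3 (v, w)
    have h2 := hX (v, w)
    dsimp only at h1 h2
    have h4 : ∑ c, ind (∃ e ∈ P c,
        (if v = w ∨ {v, w} ∈ M c then (rep (M c) v, rep (M c) v) else (v, w)) ∈
          (e.image (rep (M c))).image fun x => (x, x)) ≤
        ∑ c, ind (∃ e ∈ P c, v ∈ e ∧ w ∈ e) := by
      refine Finset.sum_le_sum fun c _ => ind_mono fun ⟨e, he, hv⟩ => ⟨e, he, ?_⟩
      obtain ⟨h5, h6⟩ := mem_Es.mp (hP1 c e he)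
      by_cases hj : v = w ∨ {v, w} ∈ M c
      · rw [if_pos hj] at hv
        have h7 := ((hset c).geo.rep_mem_image (hM1 c) h5 (V2_av h6) v).mp
          (hdiag.mem_finset_image.mp hv)
        refine ⟨h7, ?_⟩
        rcases hj with hj | hj
        · exact hj ▸ h7
        · exact ((hset c).geo.pair e h5 _ ((hset c).geo.closure (hM1 c) h5 (V2_av h6) hj
            (Finset.mem_insert_self _ _) h7)).1 (by simp)
      · rw [if_neg hj] at hv
        obtain ⟨x, -, hx⟩ := Finset.mem_image.mp hv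
        exact absurd (Or.inl ((congrArg Prod.fst hx).symm.trans (congrArg Prod.snd hx))) hj
    have h5 : ∑ c, ∑ e ∈ Ft (H c) (D / ω) v w,
        V2 (Hg (H c) (D / ω)) (hvy (H c) (D / ω)) (lam c) K (2 * (η / 6)) (M c) e ≤
        ∑ c, load (Es (Hg (H c) (D / ω)) (hvy (H c) (D / ω)) (lam c) K (2 * (η / 6)) (M c))
          (fun e => (e.image (rep (M c))).image fun x => (x, x))
          (fun e => V2 (Hg (H c) (D / ω)) (hvy (H c) (D / ω)) (lam c) K (2 * (η / 6)) (M c) e *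
            ind (e ∈ Hg (H c) (D / ω)))
          (if v = w ∨ {v, w} ∈ M c then (rep (M c) v, rep (M c) v) else (v, w)) := by
      refine Finset.sum_le_sum fun c _ => ?_
      by_cases hj : v = w ∨ {v, w} ∈ M c
      · rw [if_pos hj]
        refine (hXle c (M c) v w).trans (le_of_eq ?_)
        rw [← (hset c).load_Es (hM1 c) v]
        exact (load_image hdiag _).symm
      · refine le_trans (le_of_eq (Finset.sum_eq_zero fun e he => ?_))
          (load_nonneg (fun e => mul_nonneg ((hset c).V2_nonneg hζ _ e) (ind_nonneg _)) _)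
        by_contra h6
        exact hj ((mem_Ft.mp he).2.2.imp_right fun h7 => (V2_av h6).1 h7)
    rw [Finset.sum_sub_distrib, ← Finset.mul_sum, Finset.sum_const, nsmul_eq_mul,
      Finset.card_univ] at h2
    have h6 := mul_le_mul_of_nonneg_left h5 (by linarith : 0 ≤ 1 - η)
    exact num_final hη hη1 ha (Nat.cast_nonneg _) hs h2
      (((sub_le_sub_right h6 _).trans h1).trans h4)

end Pool.Agent.Lib.MP_f8e628_co
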