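import Mathlib
import Pool.Agent.Lib.MP_f8e628_co.Round
import Pool.Agent.Lib.MP_f8e628_co.Ex.Many

set_option autoImplicit false
set_option linter.unusedSectionVars false

open Finset

namespace Pool.Agent.Lib.MP_f8e628_co

section
variable {V : Type} [DecidableEq V] [Fintype V]

lemma partition2 {H : Finset (Finset V)} {t Δ a : ℝ} (ht : 0 < t)
    (hdeg : ∀ v, ((H.filter (fun e => v ∈ e)).card : ℝ) ≤ t) (hΔ1 : 1 ≤ Δ)
    (hΔ : ∀ u, ((ball (hadj H) 1 u).card : ℝ) ≤ Δ) {s : ℕ} (hs : 0 < s) (ha : 0 ≤ a)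
    (hnum : 4 * Real.exp (-(a ^ 2 / (2 * t))) * (Δ ^ 2 * s) ≤ 1) :
    ∃ col : Finset V → Fin s, ∀ c v w,
      (cdg (H.filter (fun e => col e = c)) {v, w} : ℝ) ≤ 1 / s * (cdg H {v, w} : ℝ) + a := by
  have hs' : (0 : ℝ) < s := by exact_mod_cast hs
  have hs1 : (1 : ℝ) ≤ s := by exact_mod_cast hs
  obtain ⟨col, -, hcol⟩ := lc (C := Finset V) (J := (V × V) × Fin s) (Ω := Fin s)
    (fun _ _ => 1 / (s : ℝ)) (fun _ _ => by positivity)
    (fun _ => by simp; field_simp)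
    (fun j => H.filter (fun e => {j.1.1, j.1.2} ⊆ e)) t ht
    (fun j => (Nat.cast_le.mpr (cdg_le_deg j.1.1 j.1.2)).trans (hdeg j.1.1))
    (fun j _ ω => 1 - ind (ω = j.2))
    (fun j _ ω _ => ⟨by linarith [ind_le_one (ω = j.2)], by linarith [ind_nonneg (ω = j.2)]⟩)
    (fun _ _ => 1 - 1 / (s : ℝ)) (fun _ _ _ _ => True)
    (fun j => pball (hadj H) 1 j.1.1 ×ˢ Finset.univ) (Δ ^ 2 * s)
    (fun j => by
      rw [Finset.card_product, Finset.card_univ, Fintype.card_fin]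
      push_cast
      exact mul_le_mul_of_nonneg_right (card_pball_le hΔ 1 j.1.1) hs'.le)
    (one_le_mul_of_one_le_of_one_le (one_le_pow₀ hΔ1) hs1)
    (by
      intro j j' hj' e he he' _ _ _
      obtain ⟨h1, h2⟩ := Finset.mem_filter.mp he
      have h4 := (Finset.mem_filter.mp he').2
      have h5 : hadj H j.1.1 j'.1.1 := Or.inr ⟨e, h1, h2 (by simp), h4 (by simp)⟩
      have h6 : hadj H j'.1.1 j'.1.2 := Or.inr ⟨e, h1, h4 (by simp), h4 (by simp)⟩
      exact absurd (Finset.mem_product.mpr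
        ⟨mem_pball.mpr ⟨near_one h5, h6⟩, Finset.mem_univ _⟩) hj')
    (by
      intro j e _ g _ hg
      have h1 : ∀ ω, g ω = g j.2 := fun ω => hg ω j.2 trivial
      have h2 : ∑ ω : Fin s, ind (ω = j.2) = 1 := by
        rw [Finset.sum_eq_single j.2, ind_pos rfl]
        · intro b _ hb
          exact ind_neg hb
        · simp
      rw [Finset.sum_congr rfl fun ω _ => by rw [h1 ω],
        Finset.sum_congr rfl fun ω _ =>
          show 1 / (s : ℝ) * ((1 - ind (ω = j.2)) * g ω) =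
            1 / (s : ℝ) * g j.2 * (1 - ind (ω = j.2)) by rw [h1 ω]; ring,
        ← Finset.mul_sum Finset.univ (fun ω => 1 - ind (ω = j.2)), Finset.sum_sub_distrib, h2]
      simp only [Finset.sum_const, Finset.card_univ, Fintype.card_fin, nsmul_eq_mul, mul_one]
      apply le_of_eq
      field_simp)
    a ha hnum
  refine ⟨col, fun c v w => ?_⟩
  have h1 := hcol ((v, w), c)
  simp only [Finset.sum_sub_distrib, Finset.sum_const, nsmul_eq_mul, mul_one] at h1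
  rw [sum_ind_eq_card] at h1
  unfold cdg
  rw [Finset.filter_comm]
  linarith

/-- The invariant of the rounds: degrees and pair densities of small sets are at most `t`. -/
def Inv (L : ℕ) (H : Finset (Finset V)) (t : ℕ) : Prop :=
  (∀ v, (H.filter (fun e => v ∈ e)).card ≤ t) ∧
    ∀ U : Finset V, U.card ≤ L → ∑ p ∈ U.powersetCard 2, cdg H p ≤ t * (U.card / 2)

lemma Inv.transfer {L t : ℕ} {H H' : Finset (Finset V)} (hI : Inv L H t) {q b : ℝ} (hq : 0 ≤ q)
    (hb : 0 ≤ b) (h : ∀ v w, (cdg H' {v, w} : ℝ) ≤ q * (cdg H {v, w} : ℝ) + b) :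
    (∀ v, ((H'.filter (fun e => v ∈ e)).card : ℝ) ≤ q * t + ((L : ℝ) ^ 2 + 1) * b) ∧
    ∀ U : Finset V, U.card ≤ L → ∑ p ∈ U.powersetCard 2, (cdg H' p : ℝ) ≤
      (q * t + ((L : ℝ) ^ 2 + 1) * b) * ((U.card / 2 : ℕ) : ℝ) := by
  have hL : 0 ≤ (L : ℝ) ^ 2 * b := by positivity
  refine ⟨fun v => ?_, fun U hU => ?_⟩
  · have h1 := h v v
    rw [cdg_self, cdg_self] at h1
    have h2 : ((H.filter (fun e => v ∈ e)).card : ℝ) ≤ t := by exact_mod_cast hI.1 v
    nlinarith [mul_le_mul_of_nonneg_left h2 hq]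
  · have h1 : ∀ p ∈ U.powersetCard 2, (cdg H' p : ℝ) ≤ q * (cdg H p : ℝ) + b := by
      intro p hp
      obtain ⟨v, w, -, rfl⟩ := Finset.card_eq_two.mp (Finset.mem_powersetCard.mp hp).2
      exact h v w
    have h2 := Finset.sum_le_sum h1
    rw [Finset.sum_add_distrib, ← Finset.mul_sum, Finset.sum_const, nsmul_eq_mul,
      Finset.card_powersetCard] at h2
    have h3 : ∑ p ∈ U.powersetCard 2, (cdg H p : ℝ) ≤ t * ((U.card / 2 : ℕ) : ℝ) := by
      exact_mod_cast hI.2 U hU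
    have h4 : U.card.choose 2 ≤ L ^ 2 * (U.card / 2) := by
      by_cases h5 : U.card < 2
      · rw [Nat.choose_eq_zero_of_lt h5]
        exact Nat.zero_le _
      · exact ((Nat.choose_le_pow _ _).trans (Nat.pow_le_pow_left hU 2)).trans
          (Nat.le_mul_of_pos_right _ (by omega))
    have h5 : (U.card.choose 2 : ℝ) ≤ (L : ℝ) ^ 2 * ((U.card / 2 : ℕ) : ℝ) := by exact_mod_cast h4
    have h6 : (0 : ℝ) ≤ ((U.card / 2 : ℕ) : ℝ) := Nat.cast_nonneg _
    nlinarith [mul_le_mul_of_nonneg_left h3 hq, mul_le_mul_of_nonneg_right h5 hb,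
      mul_nonneg hb h6]

end

lemma num_round2 {ε α η s t M : ℝ} (hε : 0 < ε) (hη : 0 < η)
    (hη2 : (2 * M + 4) * η ≤ 1 / (1 + ε) - 1 / α) (hs : 0 < s) (ht : 0 < t) (hsη : 1 ≤ η * s) :
    (1 - (1 - η) ^ 2 / ((1 + ε) * (1 / s * t + η * t / s))) * t + M * (2 * (η * s)) ≤
      t - (s / α + 1) := by
  have h2 : (1 - η) ^ 2 / ((1 + ε) * (1 / s * t + η * t / s)) * t =
      (1 - η) ^ 2 / (1 + η) * (1 / (1 + ε)) * s := by
    field_simp
  have h3 : 1 - 3 * η ≤ (1 - η) ^ 2 / (1 + η) := by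
    rw [le_div_iff₀ (by linarith)]
    nlinarith [pow_pos hη 2]
  have h4 : 1 / (1 + ε) ≤ 1 := by rw [div_le_iff₀ (by linarith)]; linarith
  have h5 : 0 < 1 / (1 + ε) := by positivity
  have h6 : 1 / α + (2 * M + 1) * η ≤ (1 - η) ^ 2 / (1 + η) * (1 / (1 + ε)) := by
    nlinarith [mul_le_mul_of_nonneg_right h3 h5.le, mul_le_mul_of_nonneg_left h4 hη.le]
  have h7 := mul_le_mul_of_nonneg_right h6 hs.le
  have h8 : s / α = 1 / α * s := by ring
  rw [sub_mul, h2, h8]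
  nlinarith

/-- One round: a few matchings whose removal lowers the invariant at the rate `1 / α`. -/
theorem round2 (α : ℝ) (hα : 1 < α) : ∃ L T : ℕ, ∀ t : ℕ, T ≤ t →
    ∀ {V : Type} [Fintype V] [DecidableEq V] (H : Finset (Finset V)),
    (∀ e ∈ H, e.card = 3) → Inv L H t →
    ∃ (s t' : ℕ), t' < t ∧ (s : ℝ) ≤ α * ((t : ℝ) - t') ∧ ∃ P : Fin s → Finset (Finset V),
      (∀ c, ∀ e ∈ P c, ∀ e' ∈ P c, e ≠ e' → Disjoint e e') ∧
      Inv L (H \ Finset.univ.biUnion P) t' := by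
  set ε := (α - 1) / 2 with hε
  have hε0 : 0 < ε := by rw [hε]; linarith
  have hgap : 0 < 1 / (1 + ε) - 1 / α := by
    have : 1 / α < 1 / (1 + ε) :=
      one_div_lt_one_div_of_lt (by linarith) (by rw [hε]; linarith)
    linarith
  obtain ⟨L, hL⟩ := many2 ε hε0
  set M : ℝ := (L : ℝ) ^ 2 + 1 with hM
  have hM1 : 1 ≤ M := by rw [hM]; linarith [sq_nonneg (L : ℝ)]
  obtain ⟨η, hη0, hη1, hη2⟩ : ∃ η : ℝ, 0 < η ∧ η ≤ 1 ∧ (2 * M + 4) * η ≤ 1 / (1 + ε) - 1 / α :=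
    ⟨min 1 ((1 / (1 + ε) - 1 / α) / (2 * M + 4)), by positivity, min_le_left _ _, by
      rw [← le_div_iff₀' (by linarith)]
      exact min_le_right _ _⟩
  obtain ⟨k, N, D0, hmany⟩ := hL η hη0 hη1
  obtain ⟨S0, hS0⟩ := ev_small (c := η ^ 2 / (2 * ((N : ℝ) + 1) ^ 2 * M ^ 2)) (by positivity)
    (k + 3)
  obtain ⟨S1, hS1⟩ := exists_nat_ge (max D0 (1 / η))
  refine ⟨L, (S0 + S1 + 1) ^ 4, fun t ht V _ _ H h3 hI => ?_⟩
  set s := Nat.sqrt (Nat.sqrt t) with hs
  have hs1 : S0 + S1 + 1 ≤ s := by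
    rw [hs, Nat.le_sqrt', Nat.le_sqrt']
    calc _ = (S0 + S1 + 1) ^ 4 := by ring
      _ ≤ t := ht
  have hs2 : s ^ 4 ≤ t := by
    calc s ^ 4 = (s ^ 2) ^ 2 := by ring
      _ ≤ (Nat.sqrt t) ^ 2 := Nat.pow_le_pow_left (Nat.sqrt_le' _) 2
      _ ≤ t := Nat.sqrt_le' t
  have hs3 : t < (s + 1) ^ 4 := by
    calc t < (Nat.sqrt t + 1) ^ 2 := Nat.lt_succ_sqrt' t
      _ ≤ ((s + 1) ^ 2) ^ 2 := Nat.pow_le_pow_left (Nat.lt_succ_sqrt' _) 2
      _ = _ := by ring
  have hs0 : 0 < s := by omega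
  have r0 : (1 : ℝ) ≤ s := by exact_mod_cast hs0
  have r1 : (S1 : ℝ) ≤ s := by exact_mod_cast (by omega : S1 ≤ s)
  have r2 : (s : ℝ) ^ 4 ≤ t := by exact_mod_cast hs2
  have r3 : (t : ℝ) + 1 ≤ ((s : ℝ) + 1) ^ 4 := by exact_mod_cast hs3
  have r4 : (s : ℝ) ^ 2 ≤ (s : ℝ) ^ 4 := pow_le_pow_right₀ r0 (by norm_num)
  have r5 : (s : ℝ) ^ 3 ≤ (s : ℝ) ^ 4 := pow_le_pow_right₀ r0 (by norm_num)
  have ht0 : (0 : ℝ) < t := lt_of_lt_of_le (by positivity) r2
  have hsη : 1 ≤ η * s := by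
    have h1 : 1 / η ≤ s := ((le_max_right _ _).trans hS1).trans r1
    rw [div_le_iff₀ hη0] at h1
    linarith
  have hdeg' : ∀ v, ((H.filter (fun e => v ∈ e)).card : ℝ) ≤ t := fun v => by
    exact_mod_cast hI.1 v
  set Δ := 3 * ((s : ℝ) + 1) ^ 4 with hΔ
  have hΔ1 : 1 ≤ Δ := by linarith
  have hΔs : (s : ℝ) ≤ Δ := by nlinarith
  have hΔb : ∀ u, ((ball (hadj H) 1 u).card : ℝ) ≤ Δ := fun u =>
    (card_ball_hadj h3 hdeg' u).trans (by linarith)
  have hnum := hS0 s (by omega)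
  rw [← hΔ] at hnum
  have hN : (1 : ℝ) ≤ (N : ℝ) + 1 := by linarith [Nat.cast_nonneg (α := ℝ) N]
  have hN2 : (1 : ℝ) ≤ ((N : ℝ) + 1) ^ 2 := one_le_pow₀ hN
  have hM2 : (1 : ℝ) ≤ M ^ 2 := one_le_pow₀ hM1
  obtain ⟨col, hcol⟩ := partition2 (a := η * t / s / M) ht0 hdeg' hΔ1 hΔb hs0 (by positivity) (by
    refine le_trans (mul_le_mul ?_ ?_ (by positivity) (by positivity)) hnum
    · refine mul_le_mul_of_nonneg_left (Real.exp_le_exp.mpr (neg_le_neg ?_)) (by norm_num)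
      have e1 : (η * t / s / M) ^ 2 / (2 * t) = η ^ 2 / (2 * M ^ 2) * (t / s ^ 2) := by field_simp
      have e2 : (s : ℝ) ≤ t / s ^ 2 := by
        rw [le_div_iff₀ (by positivity)]
        nlinarith
      have e3 : η ^ 2 / (2 * ((N : ℝ) + 1) ^ 2 * M ^ 2) ≤ η ^ 2 / (2 * M ^ 2) :=
        div_le_div_of_nonneg_left (by positivity) (by positivity) (by nlinarith)
      rw [e1]
      exact mul_le_mul e3 e2 (by positivity) (by positivity)
    · calc Δ ^ 2 * s ≤ Δ ^ 2 * Δ := mul_le_mul_of_nonneg_left hΔs (by positivity)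
        _ = Δ ^ 3 := by ring
        _ ≤ Δ ^ (k + 3) := pow_le_pow_right₀ hΔ1 (by omega))
  have hcl := fun c => hI.transfer (q := 1 / s) (by positivity) (by positivity) (hcol c)
  rw [← hM, mul_div_cancel₀ _ (by linarith : M ≠ 0)] at hcl
  have hst : s ≤ t := le_trans (Nat.le_self_pow (by norm_num) s) hs2
  have hst' : (s : ℝ) ≤ t := by exact_mod_cast hst
  have hD1 : (s : ℝ) ≤ 1 / s * t := by
    rw [one_div_mul_eq_div, le_div_iff₀ (by positivity)]
    nlinarith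
  have hD2 : 0 ≤ η * t / s := by positivity
  obtain ⟨P, hP1, hP2, hP3⟩ := hmany (C := Fin s) (fun c => H.filter (fun e => col e = c))
    (1 / s * t + η * t / s)
    (by linarith [((le_max_left _ _).trans hS1).trans r1])
    (fun c e he => h3 e (Finset.mem_filter.mp he).1) (fun c => (hcl c).1) (fun c => (hcl c).2)
    (hadj H) (hadj_refl H) (hadj_symm H)
    (fun c e he u hu u' hu' => Or.inr ⟨e, (Finset.mem_filter.mp he).1, hu, hu'⟩) Δ hΔ1 hΔb
    s (by positivity) (by simp) (η * s / (N + 1)) (by positivity) (by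
      refine le_trans (mul_le_mul ?_ (pow_le_pow_right₀ hΔ1 (by omega))
        (by positivity) (by positivity)) hnum
      refine mul_le_mul_of_nonneg_left (Real.exp_le_exp.mpr (neg_le_neg ?_)) (by norm_num)
      have e1 : (η * s / (N + 1)) ^ 2 / (2 * s) = η ^ 2 / (2 * ((N : ℝ) + 1) ^ 2) * s := by
        field_simp
      rw [e1]
      exact mul_le_mul_of_nonneg_right (div_le_div_of_nonneg_left (by positivity) (by positivity)
        (by nlinarith)) (by positivity))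
  have hα0 : 0 < α := by linarith
  have hce : ⌈(s : ℝ) / α⌉₊ ≤ s := by
    rw [Nat.ceil_le, div_le_iff₀ hα0]
    nlinarith
  have hce0 : 0 < ⌈(s : ℝ) / α⌉₊ := Nat.ceil_pos.mpr (by positivity)
  set ρ := (1 - η) ^ 2 / ((1 + ε) * (1 / s * t + η * t / s)) with hρ
  have hρ1 : ρ ≤ 1 := by
    rw [hρ, div_le_one (by positivity)]
    nlinarith [mul_nonneg hε0.le (by linarith : (0 : ℝ) ≤ 1 / s * t + η * t / s)]
  have hrem : ∀ v w, (cdg (H \ Finset.univ.biUnion P) {v, w} : ℝ) ≤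
      (1 - ρ) * (cdg H {v, w} : ℝ) + 2 * (η * s) := by
    intro v w
    have h2 : ∑ c, (cdg (H.filter (fun e => col e = c)) {v, w} : ℝ) = (cdg H {v, w} : ℝ) := by
      unfold cdg
      rw [Finset.card_eq_sum_card_fiberwise (f := col) (s := H.filter (fun e => {v, w} ⊆ e))
        (t := Finset.univ) (fun _ _ => Finset.mem_univ _)]
      push_cast
      refine Finset.sum_congr rfl fun c _ => ?_
      rw [Finset.filter_comm]
    have h4 := hP3 v w
    rw [h2, mul_div_cancel₀ _ (by linarith)] at h4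
    set F := (Finset.univ.biUnion P).filter (fun e => {v, w} ⊆ e) with hF
    have h6 : ∑ c, ind (∃ e ∈ P c, v ∈ e ∧ w ∈ e) ≤ (F.card : ℝ) := by
      rw [Finset.card_eq_sum_card_fiberwise (f := col) (s := F) (t := Finset.univ)
        (fun _ _ => Finset.mem_univ _)]
      push_cast
      refine Finset.sum_le_sum fun c _ => ?_
      by_cases hc : ∃ e ∈ P c, v ∈ e ∧ w ∈ e
      · rw [ind_pos hc]
        obtain ⟨e, he, hve, hwe⟩ := hc
        have h7 : e ∈ F.filter (fun e => col e = c) := Finset.mem_filter.mpr ⟨Finset.mem_filter.mpr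
          ⟨Finset.mem_biUnion.mpr ⟨c, Finset.mem_univ _, he⟩,
            Finset.insert_subset hve (Finset.singleton_subset_iff.mpr hwe)⟩,
          (Finset.mem_filter.mp (hP1 c he)).2⟩
        exact_mod_cast Finset.card_pos.mpr ⟨e, h7⟩
      · rw [ind_neg hc]
        positivity
    have h8 : F ⊆ H.filter (fun e => {v, w} ⊆ e) := by
      intro e he
      obtain ⟨h9, h10⟩ := Finset.mem_filter.mp he
      obtain ⟨c, -, hc⟩ := Finset.mem_biUnion.mp h9
      exact Finset.mem_filter.mpr ⟨(Finset.mem_filter.mp (hP1 c hc)).1, h10⟩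
    have h9 : (H \ Finset.univ.biUnion P).filter (fun e => {v, w} ⊆ e) =
        H.filter (fun e => {v, w} ⊆ e) \ F := by
      ext e
      simp only [hF, Finset.mem_filter, Finset.mem_sdiff]
      tauto
    have h10 : (cdg (H \ Finset.univ.biUnion P) {v, w} : ℝ) + F.card = cdg H {v, w} := by
      unfold cdg
      rw [h9]
      exact_mod_cast Finset.card_sdiff_add_card_eq_card h8
    linarith
  obtain ⟨h1, h2⟩ := hI.transfer (by linarith) (by positivity) hrem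
  have h4 := num_round2 hε0 hη0 hη2 (by positivity : (0 : ℝ) < s) ht0 hsη
  have h5 : (1 - ρ) * t + M * (2 * (η * s)) ≤ ((t - ⌈(s : ℝ) / α⌉₊ : ℕ) : ℝ) := by
    rw [Nat.cast_sub (hce.trans hst)]
    linarith [Nat.ceil_lt_add_one (by positivity : (0 : ℝ) ≤ s / α)]
  refine ⟨s, t - ⌈(s : ℝ) / α⌉₊, by omega, ?_, P, hP2, fun v => ?_, fun U hU => ?_⟩
  · rw [Nat.cast_sub (hce.trans hst), sub_sub_cancel, ← div_le_iff₀' hα0]
    exact Nat.le_ceil _
  · exact_mod_cast (h1 v).trans h5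
  · exact_mod_cast (h2 U hU).trans (mul_le_mul_of_nonneg_right h5 (Nat.cast_nonneg _))

end Pool.Agent.Lib.MP_f8e628_co
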