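import Mathlib
import Pool.Agent.Lib.MP_f8e628_co.Final
import Pool.Agent.Lib.MP_f8e628_co.Ex.Round

set_option autoImplicit false
set_option linter.unusedSectionVars false

open Finset

namespace Pool.Agent.Lib.MP_f8e628_co

theorem colouring2 (α : ℝ) (hα : 1 < α) : ∃ L T : ℕ, ∀ t : ℕ,
    ∀ {V : Type} [Fintype V] [DecidableEq V] (H : Finset (Finset V)),
    (∀ e ∈ H, e.card = 3) → Inv L H t →
    ∃ c : Finset V → ℕ, (∀ e ∈ H, (c e : ℝ) ≤ α * t + T) ∧
      ∀ e ∈ H, ∀ f ∈ H, e ≠ f → c e = c f → Disjoint e f := by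
  obtain ⟨L, T, hT⟩ := round2 α hα
  refine ⟨L, 3 * T, fun t => ?_⟩
  induction t using Nat.strong_induction_on with
  | _ t ih =>
    intro V _ _ H h3 hdeg
    have hα0 : 0 < α := by linarith
    by_cases ht : t < T
    · obtain ⟨c, hc1, hc2⟩ := greedy t H h3 hdeg.1
      refine ⟨c, fun e he => ?_, hc2⟩
      have h1 : (c e : ℝ) ≤ ((3 * T : ℕ) : ℝ) := by
        exact_mod_cast (hc1 e he).trans (by omega)
      have h2 : 0 ≤ α * t := by positivity
      linarith
    obtain ⟨s, t', ht', hs, P, hP1, hP2⟩ := hT t (not_lt.mp ht) H h3 hdeg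
    obtain ⟨c, hc1, hc2⟩ := ih t' ht' (H \ Finset.univ.biUnion P)
      (fun e he => h3 e (Finset.mem_sdiff.mp he).1) hP2
    let c' : Finset V → ℕ := fun e => if h : ∃ i, e ∈ P i then (h.choose : ℕ) else s + c e
    have hin : ∀ e (h : ∃ i, e ∈ P i), c' e = (h.choose : ℕ) := fun e h => dif_pos h
    have hout : ∀ e, (¬ ∃ i, e ∈ P i) → c' e = s + c e := fun e h => dif_neg h
    have hmem : ∀ e ∈ H, (¬ ∃ i, e ∈ P i) → e ∈ H \ Finset.univ.biUnion P := by
      intro e he h
      refine Finset.mem_sdiff.mpr ⟨he, fun hh => h ?_⟩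
      obtain ⟨i, -, hi⟩ := Finset.mem_biUnion.mp hh
      exact ⟨i, hi⟩
    refine ⟨c', fun e he => ?_, fun e he f hf hef hc => ?_⟩
    · by_cases h : ∃ i, e ∈ P i
      · rw [hin e h]
        have h1 : ((h.choose : ℕ) : ℝ) ≤ s := by exact_mod_cast h.choose.2.le
        have h2 : 0 ≤ α * t' := by positivity
        have h4 : (0 : ℝ) ≤ ((3 * T : ℕ) : ℝ) := Nat.cast_nonneg _
        linarith
      · rw [hout e h, Nat.cast_add]
        have h1 := hc1 e (hmem e he h)
        linarith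
    · by_cases h : ∃ i, e ∈ P i <;> by_cases h' : ∃ i, f ∈ P i
      · rw [hin e h, hin f h'] at hc
        have h1 : h.choose = h'.choose := Fin.ext hc
        exact hP1 _ e h.choose_spec f (h1 ▸ h'.choose_spec) hef
      · rw [hin e h, hout f h'] at hc
        have := h.choose.2
        omega
      · rw [hout e h, hin f h'] at hc
        have := h'.choose.2
        omega
      · rw [hout e h, hout f h'] at hc
        exact hc2 e (hmem e he h) f (hmem f hf h') hef (by omega)

lemma inv_of_density {V : Type} [Fintype V] [DecidableEq V] (L : ℕ) {H : Finset (Finset V)}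
    (h3 : ∀ e ∈ H, e.card = 3) {t : ℕ} (hdeg : ∀ v, (H.filter (fun e => v ∈ e)).card ≤ t)
    (hodd : ∀ U : Finset V, (H.filter (fun e => 2 ≤ (e ∩ U).card)).card ≤ t * (U.card / 2)) :
    Inv L H (t + 2 * 2 ^ L) := by
  refine ⟨fun v => (hdeg v).trans (Nat.le_add_right _ _), fun U hU => ?_⟩
  by_cases hU2 : U.card < 2
  · rw [Finset.powersetCard_eq_empty.mpr hU2, Finset.sum_empty]
    exact Nat.zero_le _
  have h1 : ∑ p ∈ U.powersetCard 2, cdg H p = ∑ e ∈ H, (e ∩ U).card.choose 2 := by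
    unfold cdg
    simp only [Finset.card_filter]
    rw [Finset.sum_comm]
    refine Finset.sum_congr rfl fun e _ => ?_
    rw [← Finset.card_filter, ← Finset.card_powersetCard]
    congr 1
    ext p
    simp only [Finset.mem_filter, Finset.mem_powersetCard, Finset.subset_inter_iff]
    tauto
  have h2 : ∀ e ∈ H, (e ∩ U).card.choose 2 ≤
      (if 2 ≤ (e ∩ U).card then 1 else 0) + 2 * (if e ⊆ U then 1 else 0) := by
    intro e he
    have h4 : (e ∩ U).card ≤ 3 := h3 e he ▸ Finset.card_le_card Finset.inter_subset_left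
    by_cases h5 : (e ∩ U).card = 3
    · have h6 : e ∩ U = e :=
        Finset.eq_of_subset_of_card_le Finset.inter_subset_left (by rw [h5, h3 e he])
      rw [if_pos (Finset.inter_eq_left.mp h6), h5]
      decide
    · refine le_trans ?_ (Nat.le_add_right _ _)
      generalize (e ∩ U).card = n at h4 h5
      interval_cases n <;> simp at h5 ⊢
  have h4 := Finset.sum_le_sum h2
  rw [Finset.sum_add_distrib, ← Finset.mul_sum, ← Finset.card_filter, ← Finset.card_filter] at h4
  have h5 : (H.filter (fun e => e ⊆ U)).card ≤ 2 ^ L := by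
    refine le_trans (Finset.card_le_card (t := U.powerset) fun e he =>
      Finset.mem_powerset.mpr (Finset.mem_filter.mp he).2) ?_
    rw [Finset.card_powerset]
    exact Nat.pow_le_pow_right (by norm_num) hU
  have h6 : 2 * 2 ^ L ≤ 2 * 2 ^ L * (U.card / 2) := Nat.le_mul_of_pos_right _ (by omega)
  have h7 := hodd U
  rw [h1, add_mul]
  omega

lemma partition_of_colouring {V : Type} [DecidableEq V] (E : Finset (Finset V))
    (c : Finset V → ℕ) (k : ℕ) (hk : ∀ e ∈ E, c e < k)
    (hc : ∀ e ∈ E, ∀ f ∈ E, e ≠ f → c e = c f → Disjoint e f) :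
    ∃ P : Finpartition E, P.parts.card ≤ k ∧
      ∀ M ∈ P.parts, ∀ e ∈ M, ∀ f ∈ M, e ≠ f → Disjoint e f := by
  refine ⟨Finpartition.ofExistsUnique
    ((E.image c).image fun j => E.filter fun e => c e = j) ?_ ?_ ?_, ?_, ?_⟩
  · intro M hM
    obtain ⟨j, _, rfl⟩ := Finset.mem_image.mp hM
    exact Finset.filter_subset _ _
  · intro e he
    refine ⟨E.filter fun f => c f = c e, ⟨Finset.mem_image_of_mem _
      (Finset.mem_image_of_mem _ he), Finset.mem_filter.mpr ⟨he, rfl⟩⟩, ?_⟩
    rintro M ⟨hM, heM⟩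
    obtain ⟨j, _, rfl⟩ := Finset.mem_image.mp hM
    rw [(Finset.mem_filter.mp heM).2]
  · intro hM
    obtain ⟨j, hj, h0⟩ := Finset.mem_image.mp hM
    obtain ⟨e, he, hej⟩ := Finset.mem_image.mp hj
    exact Finset.notMem_empty e (h0 ▸ Finset.mem_filter.mpr ⟨he, hej⟩)
  · rw [Finpartition.ofExistsUnique_parts]
    refine Finset.card_image_le.trans (le_trans (Finset.card_le_card (t := Finset.range k)
      fun j hj => ?_) (Finset.card_range k).le)
    obtain ⟨e, he, rfl⟩ := Finset.mem_image.mp hj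
    exact Finset.mem_range.mpr (hk e he)
  · rw [Finpartition.ofExistsUnique_parts]
    intro M hM e he f hf hef
    obtain ⟨j, _, rfl⟩ := Finset.mem_image.mp hM
    obtain ⟨h1, h2⟩ := Finset.mem_filter.mp he
    obtain ⟨h4, h5⟩ := Finset.mem_filter.mp hf
    exact hc e h1 f h4 hef (h2.trans h5.symm)

lemma count_le_parts {V : Type} [DecidableEq V] {E : Finset (Finset V)} (P : Finpartition E)
    (Q : Finset V → Prop) [DecidablePred Q] {b : ℕ}
    (h : ∀ M ∈ P.parts, (M.filter Q).card ≤ b) : (E.filter Q).card ≤ P.parts.card * b := by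
  refine le_trans (Finset.card_le_card (t := P.parts.biUnion fun M => M.filter Q) fun e he => ?_)
    (Finset.card_biUnion_le_card_mul _ _ _ h)
  obtain ⟨h1, h2⟩ := Finset.mem_filter.mp he
  obtain ⟨M, hM, heM⟩ := P.exists_mem h1
  exact Finset.mem_biUnion.mpr ⟨M, hM, Finset.mem_filter.mpr ⟨heM, h2⟩⟩

lemma density_of_partition {V : Type} [DecidableEq V] {E : Finset (Finset V)}
    (P : Finpartition E) (hP : ∀ M ∈ P.parts, ∀ e ∈ M, ∀ f ∈ M, e ≠ f → Disjoint e f) :
    (∀ v, (E.filter (fun e => v ∈ e)).card ≤ P.parts.card) ∧ ∀ U : Finset V,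
      (E.filter (fun e => 2 ≤ (e ∩ U).card)).card ≤ P.parts.card * (U.card / 2) := by
  refine ⟨fun v => ?_, fun U => count_le_parts P _ fun M hM => ?_⟩
  · have h1 := count_le_parts P (fun e => v ∈ e) (b := 1) fun M hM =>
      Finset.card_le_one.mpr fun e he f hf => by
        by_contra hef
        exact Finset.disjoint_left.mp (hP M hM e (Finset.mem_filter.mp he).1 f
          (Finset.mem_filter.mp hf).1 hef) (Finset.mem_filter.mp he).2 (Finset.mem_filter.mp hf).2
    rwa [mul_one] at h1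
  · have h1 : ((M.filter fun e => 2 ≤ (e ∩ U).card).biUnion fun e => e ∩ U).card ≤ U.card :=
      Finset.card_le_card (Finset.biUnion_subset.mpr fun e _ => Finset.inter_subset_right)
    rw [Finset.card_biUnion fun e he f hf hef => (hP M hM e (Finset.mem_filter.mp he).1 f
      (Finset.mem_filter.mp hf).1 hef).mono Finset.inter_subset_left Finset.inter_subset_left]
      at h1
    have h2 := Finset.card_nsmul_le_sum (M.filter fun e => 2 ≤ (e ∩ U).card)
      (fun e => (e ∩ U).card) 2 fun e he => (Finset.mem_filter.mp he).2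
    rw [smul_eq_mul] at h2
    omega

theorem partition_of_density (ε : ℝ) (hε : 0 < ε) : ∃ C : ℝ,
    ∀ {V : Type} [Fintype V] [DecidableEq V] (H : Finset (Finset V)) (t : ℕ),
    (∀ e ∈ H, e.card = 3) → (∀ v, (H.filter (fun e => v ∈ e)).card ≤ t) →
    (∀ U : Finset V, (H.filter (fun e => 2 ≤ (e ∩ U).card)).card ≤ t * (U.card / 2)) →
    ∃ P : Finpartition H, (P.parts.card : ℝ) ≤ (1 + ε) * t + C ∧
      ∀ M ∈ P.parts, ∀ e ∈ M, ∀ f ∈ M, e ≠ f → Disjoint e f := by
  obtain ⟨L, T, hT⟩ := colouring2 (1 + ε) (by linarith)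
  refine ⟨(1 + ε) * (2 * 2 ^ L) + T + 1, fun H t h3 hdeg hodd => ?_⟩
  obtain ⟨c, hc1, hc2⟩ := hT _ H h3 (inv_of_density L h3 hdeg hodd)
  have h0 : 0 ≤ (1 + ε) * ((t + 2 * 2 ^ L : ℕ) : ℝ) + T := by positivity
  obtain ⟨P, hP1, hP2⟩ := partition_of_colouring H c (⌊(1 + ε) * ((t + 2 * 2 ^ L : ℕ) : ℝ) + T⌋₊ + 1)
    (fun e he => Nat.lt_succ_of_le (Nat.le_floor (hc1 e he))) hc2
  refine ⟨P, (Nat.cast_le.mpr hP1).trans ?_, hP2⟩
  have h1 := Nat.floor_le h0
  push_cast at h1 ⊢
  linarith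

lemma density_of_degree {V : Type} [DecidableEq V] {E : Finset (Finset V)} {t : ℕ}
    (hdeg : ∀ v, (E.filter (fun e => v ∈ e)).card ≤ t) (U : Finset V) :
    (E.filter (fun e => 2 ≤ (e ∩ U).card)).card ≤ (3 * t + 1) / 2 * (U.card / 2) := by
  by_cases hU : U.card < 2
  · rw [Finset.filter_eq_empty_iff.mpr fun e _ h =>
      absurd (h.trans (Finset.card_le_card Finset.inter_subset_right)) (not_le.mpr hU)]
    exact Nat.zero_le _
  have h1 := Finset.card_nsmul_le_sum (E.filter fun e => 2 ≤ (e ∩ U).card)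
    (fun e => (e ∩ U).card) 2 fun e he => (Finset.mem_filter.mp he).2
  have h2 : ∑ e ∈ E.filter (fun e => 2 ≤ (e ∩ U).card), (e ∩ U).card ≤ ∑ e ∈ E, (e ∩ U).card :=
    Finset.sum_le_sum_of_subset (Finset.filter_subset _ _)
  have h4 : ∑ e ∈ E, (e ∩ U).card = ∑ v ∈ U, (E.filter (fun e => v ∈ e)).card := by
    simp only [Finset.card_filter]
    rw [Finset.sum_comm]
    refine Finset.sum_congr rfl fun e _ => ?_
    rw [← Finset.card_filter, Finset.filter_mem_eq_inter, Finset.inter_comm]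
  have h5 := Finset.sum_le_card_nsmul U (fun v => (E.filter (fun e => v ∈ e)).card) t
    fun v _ => hdeg v
  rw [smul_eq_mul] at h1 h5
  have h6 : U.card * t ≤ 3 * (U.card / 2) * t := Nat.mul_le_mul_right _ (by omega)
  have h7 : 3 * t * (U.card / 2) ≤ 2 * ((3 * t + 1) / 2) * (U.card / 2) :=
    Nat.mul_le_mul_right _ (by omega)
  nlinarith

end Pool.Agent.Lib.MP_f8e628_co
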